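import Mathlib
import Pool.Agent.Helper49.Girth.Comb

set_option autoImplicit false

namespace Pool.Agent.Helper49.FH

open Pool.Agent.Helper49.Girth (ty ty_succ ty_zero)

open Polynomial

/-- Chebyshev-type polynomials -/
noncomputable def eP : ℕ → ℤ[X]
  | 0 => 0
  | 1 => 1
  | (k + 2) => (X - 2) * eP (k + 1) - eP k

theorem eP_zero : eP 0 = 0 := rfl
theorem eP_one : eP 1 = 1 := rfl
theorem eP_succ (k : ℕ) : eP (k + 2) = (X - 2) * eP (k + 1) - eP k := rfl

theorem eP_monic (k : ℕ) : (eP (k + 1)).Monic ∧ (eP (k + 1)).natDegree = k ∧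
    (eP k).degree < k := by
  induction k with
  | zero => simp [eP_one, eP_zero]
  | succ k ih =>
    obtain ⟨h1, h2, h3⟩ := ih
    have hX : (X - 2 : ℤ[X]).Monic := by
      have : (X - 2 : ℤ[X]) = X - C 2 := by simp
      rw [this]
      exact monic_X_sub_C 2
    have hXd : (X - 2 : ℤ[X]).natDegree = 1 := by
      have : (X - 2 : ℤ[X]) = X - C 2 := by simp
      rw [this]
      exact natDegree_X_sub_C 2
    have h4 : ((X - 2) * eP (k + 1)).Monic := hX.mul h1
    have h5 : ((X - 2) * eP (k + 1)).natDegree = k + 1 := by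
      rw [hX.natDegree_mul h1, hXd, h2]; ring
    have h6 : ((X - 2) * eP (k + 1)).degree = ((k + 1 : ℕ) : WithBot ℕ) := by
      rw [degree_eq_natDegree h4.ne_zero, h5]
    have h7 : (eP k).degree < ((X - 2) * eP (k + 1)).degree := by
      rw [h6]
      exact h3.trans (by exact_mod_cast Nat.lt_succ_self k)
    refine ⟨?_, ?_, ?_⟩
    · rw [eP_succ]
      exact h4.sub_of_left h7
    · rw [eP_succ]
      apply natDegree_eq_of_degree_eq_some
      rw [degree_sub_eq_left_of_degree_lt h7, h6]
    · rw [degree_eq_natDegree h1.ne_zero, h2]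
      exact_mod_cast Nat.lt_succ_self k

theorem eP_add_monic (k : ℕ) : (eP (k + 1) + eP k).Monic := by
  obtain ⟨h1, h2, h3⟩ := eP_monic k
  apply h1.add_of_left
  rw [degree_eq_natDegree h1.ne_zero, h2]
  exact h3

/-- A rational root of a monic integer polynomial is an integer. -/
theorem int_of_root (p : ℤ[X]) (hp : p.Monic) (c : ℚ) (h : aeval c p = 0) :
    ∃ n : ℤ, (n : ℚ) = c := by
  have := isInteger_of_is_root_of_monic hp h
  obtain ⟨n, hn⟩ := this
  exact ⟨n, hn⟩

/-- The combinatorial end of the argument. -/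
theorem comb2 (m : ℕ) (hm : 2 ≤ m) (d l : Bool → ℕ) (hd : ∀ σ, 1 ≤ d σ) (hl : ∀ σ, 1 ≤ l σ)
    (σ : Bool) (r : ℕ → ℕ) (h0 : r 0 = 0) (hend : r (m + 1) = 0) (hne : ∃ k, k ≤ m ∧ r k ≠ 0)
    (h : ∀ j, 1 ≤ j → j ≤ m →
      d (ty σ (j - 1)) * r j = l (ty σ (j - 1)) * (r (j - 1) + r (j + 1))) :
    m = 2 ∨ m = 3 ∨ m = 5 := by
  -- forward propagation of zeros
  have hfwd : r 1 = 0 → ∀ k, k ≤ m → r k = 0 ∧ (k + 1 ≤ m + 1 → r (k + 1) = 0) := by
    intro h1 k
    induction k with
    | zero => intro _; exact ⟨h0, fun _ => h1⟩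
    | succ k ih =>
      intro hk
      obtain ⟨i1, i2⟩ := ih (by omega)
      have i3 := i2 (by omega)
      refine ⟨i3, fun _ => ?_⟩
      have e := h (k + 1) (by omega) (by omega)
      rw [i3, Nat.add_sub_cancel, i1, mul_zero, zero_add] at e
      have := hl (ty σ k)
      rcases Nat.mul_eq_zero.mp e.symm with h4 | h4
      · omega
      · exact h4
  have hr1 : r 1 ≠ 0 := by
    intro h1
    obtain ⟨k, hk, hk'⟩ := hne
    exact hk' (hfwd h1 k hk).1
  -- backward propagation of zeros
  have hback : ∀ k, k ≤ m → 1 ≤ k → r k ≠ 0 := by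
    intro k
    induction k with
    | zero => intro _ h1; omega
    | succ k ih =>
      intro hk _ hz
      have e := h (k + 1) (by omega) hk
      rw [hz, mul_zero, Nat.add_sub_cancel] at e
      have h2 := hl (ty σ k)
      have h3 : r k + r (k + 1 + 1) = 0 := by
        rcases Nat.mul_eq_zero.mp e.symm with h4 | h4
        · omega
        · exact h4
      rcases Nat.eq_zero_or_pos k with hk0 | hk0
      · subst hk0
        exact hr1 hz
      · exact ih (by omega) hk0 (by omega)
  -- rational slopes
  set a : ℚ := (d σ : ℚ) / l σ with ha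
  set a' : ℚ := (d (!σ) : ℚ) / l (!σ) with ha'
  have hapos : 0 < a := by
    have h1 : (0 : ℚ) < d σ := by exact_mod_cast hd σ
    have h2 : (0 : ℚ) < l σ := by exact_mod_cast hl σ
    positivity
  have hapos' : 0 < a' := by
    have h1 : (0 : ℚ) < d (!σ) := by exact_mod_cast hd (!σ)
    have h2 : (0 : ℚ) < l (!σ) := by exact_mod_cast hl (!σ)
    positivity
  set c : ℚ := a * a' with hc
  have hcpos : 0 < c := mul_pos hapos hapos'
  have hty : ∀ k, ty σ (2 * k) = σ ∧ ty σ (2 * k + 1) = !σ := by
    intro k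
    induction k with
    | zero => exact ⟨rfl, rfl⟩
    | succ k ih =>
      have e : 2 * (k + 1) = 2 * k + 2 := by ring
      have e' : 2 * (k + 1) + 1 = 2 * k + 1 + 2 := by ring
      rw [e', e, Pool.Agent.Helper49.Girth.ty_add_two, Pool.Agent.Helper49.Girth.ty_add_two]
      exact ih
  have hrec : ∀ j, 1 ≤ j → j ≤ m → (r (j + 1) : ℚ) =
      ((d (ty σ (j - 1)) : ℚ) / l (ty σ (j - 1))) * r j - r (j - 1) := by
    intro j h1 h2
    have e := h j h1 h2
    have e2 : (d (ty σ (j - 1)) : ℚ) * r j = l (ty σ (j - 1)) * (r (j - 1) + r (j + 1)) := by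
      exact_mod_cast e
    have h3 : (l (ty σ (j - 1)) : ℚ) ≠ 0 := by
      have := hl (ty σ (j - 1))
      positivity
    field_simp
    linarith
  have key : ∀ k, (2 * k + 1 ≤ m + 1 → (r (2 * k) : ℚ) = r 1 * a * aeval c (eP k) ∧
      (r (2 * k + 1) : ℚ) = r 1 * aeval c (eP (k + 1) + eP k)) := by
    intro k
    induction k with
    | zero =>
      intro _
      simp [eP_zero, eP_one, h0]
    | succ k ih =>
      intro hk
      obtain ⟨i1, i2⟩ := ih (by omega)
      have e1 := hrec (2 * k + 1) (by omega) (by omega)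
      rw [Nat.add_sub_cancel, (hty k).1, i1, i2] at e1
      have e1' : (r (2 * (k + 1)) : ℚ) = r 1 * a * aeval c (eP (k + 1)) := by
        have : 2 * (k + 1) = 2 * k + 1 + 1 := by ring
        rw [this, e1, map_add]
        ring
      refine ⟨e1', ?_⟩
      have e2 := hrec (2 * (k + 1)) (by omega) (by omega)
      have e3 : 2 * (k + 1) - 1 = 2 * k + 1 := by omega
      rw [e3, (hty k).2, e1', i2] at e2
      have e4 : aeval c (2 : ℤ[X]) = 2 := map_ofNat _ 2
      have e5 : aeval c (eP (k + 1 + 1) + eP (k + 1)) =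
          (c - 2) * aeval c (eP (k + 1)) - aeval c (eP k) + aeval c (eP (k + 1)) := by
        rw [eP_succ, map_add, map_sub, map_mul, map_sub, aeval_X, e4]
      rw [e2, e5, map_add, hc, ← ha']
      ring
  -- `c` is an integer
  have hr1' : (r 1 : ℚ) ≠ 0 := by exact_mod_cast hr1
  obtain ⟨n, hn⟩ : ∃ n : ℤ, (n : ℚ) = c := by
    rcases Nat.even_or_odd' (m + 1) with ⟨k, hk | hk⟩
    · obtain ⟨k', rfl⟩ : ∃ k', k = k' + 1 := ⟨k - 1, by omega⟩
      -- r (2 (k'+1)) from the recursion
      have e1 := hrec (2 * k' + 1) (by omega) (by omega)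
      obtain ⟨i1, i2⟩ := key k' (by omega)
      rw [Nat.add_sub_cancel, (hty k').1, i1, i2] at e1
      have e2 : 2 * k' + 1 + 1 = m + 1 := by omega
      rw [e2, hend, map_add] at e1
      have e3 : (r 1 : ℚ) * a * aeval c (eP (k' + 1)) = 0 := by
        rw [ha]
        push_cast at e1
        linarith
      have e4 : aeval c (eP (k' + 1)) = 0 := by
        rcases mul_eq_zero.mp e3 with h5 | h5
        · exact absurd h5 (mul_ne_zero hr1' hapos.ne')
        · exact h5
      exact int_of_root _ (eP_monic k').1 c e4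
    · have h1 := (key k (by omega)).2
      rw [← hk, hend] at h1
      have e4 : aeval c (eP (k + 1) + eP k) = 0 := by
        rcases mul_eq_zero.mp h1.symm with h5 | h5
        · exact absurd h5 hr1'
        · exact h5
      exact int_of_root _ (eP_add_monic k) c e4
  have hnpos : 0 < n := by
    have : (0 : ℚ) < n := by rw [hn]; exact hcpos
    exact_mod_cast this
  have hr0 : ∀ k, 1 ≤ k → k ≤ m → (r k : ℚ) ≠ 0 := by
    intro k h1 h2
    exact_mod_cast hback k h2 h1
  -- `r (2k)` without the parity restriction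
  have keyE : ∀ k, 2 * k ≤ m + 1 → (r (2 * k) : ℚ) = r 1 * a * aeval c (eP k) := by
    intro k hk
    rcases Nat.eq_zero_or_pos k with h1 | h1
    · subst h1
      simp [eP_zero, h0]
    · obtain ⟨k', rfl⟩ : ∃ k', k = k' + 1 := ⟨k - 1, by omega⟩
      have e1 := hrec (2 * k' + 1) (by omega) (by omega)
      obtain ⟨i1, i2⟩ := key k' (by omega)
      rw [Nat.add_sub_cancel, (hty k').1, i1, i2] at e1
      have : 2 * (k' + 1) = 2 * k' + 1 + 1 := by ring
      rw [this, e1, map_add]
      ring
  have v2 : aeval c (2 : ℤ[X]) = 2 := map_ofNat _ 2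
  have val2 : aeval c (eP 2) = c - 2 := by
    rw [eP_succ, eP_zero, eP_one, map_sub, map_mul, map_sub, aeval_X, v2]
    simp
  have val3 : aeval c (eP 3) = (c - 2) * (c - 2) - 1 := by
    rw [eP_succ, map_sub, map_mul, map_sub, aeval_X, v2, val2, eP_one]
    simp
  have hcases : n = 1 ∨ n = 2 ∨ n = 3 ∨ 4 ≤ n := by omega
  rcases hcases with h1 | h1 | h1 | h1
  · -- c = 1
    left
    have hc1 : c = 1 := by rw [← hn, h1]; norm_num
    have h3 : (r 3 : ℚ) = 0 := by
      have := (key 1 (by omega)).2
      rw [map_add, val2, eP_one, map_one, hc1] at this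
      norm_num at this
      exact_mod_cast this
    by_contra hm2
    exact hr0 3 (by norm_num) (by omega) h3
  · right; left
    have hc1 : c = 2 := by rw [← hn, h1]; norm_num
    have h3 : (r 3 : ℚ) = r 1 := by
      have := (key 1 (by omega)).2
      rw [map_add, val2, eP_one, map_one, hc1] at this
      simpa using this
    have hm3 : m ≠ 2 := by
      rintro rfl
      rw [hend] at h3
      exact hr1' (by rw [← h3]; norm_num)
    have h4 : (r 4 : ℚ) = 0 := by
      have := keyE 2 (by omega)
      rw [val2, hc1] at this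
      simpa using this
    by_contra hm4
    exact hr0 4 (by norm_num) (by omega) h4
  · right; right
    have hc1 : c = 3 := by rw [← hn, h1]; norm_num
    have h3 : (r 3 : ℚ) = r 1 * 2 := by
      have := (key 1 (by omega)).2
      rw [map_add, val2, eP_one, map_one, hc1] at this
      norm_num at this
      exact this
    have hm3 : m ≠ 2 := by
      rintro rfl
      rw [hend] at h3
      apply hr1'
      push_cast at h3
      linarith
    have h4 : (r 4 : ℚ) = r 1 * a := by
      have := keyE 2 (by omega)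
      rw [val2, hc1] at this
      norm_num at this
      exact this
    have hm4 : m ≠ 3 := by
      rintro rfl
      rw [hend] at h4
      exact mul_ne_zero hr1' hapos.ne' (by rw [← h4]; norm_num)
    have h5 : (r 5 : ℚ) = r 1 := by
      have := (key 2 (by omega)).2
      rw [map_add, val3, val2, hc1] at this
      norm_num at this
      exact_mod_cast this
    have hm5 : m ≠ 4 := by
      rintro rfl
      rw [hend] at h5
      exact hr1' (by rw [← h5]; norm_num)
    have h6 : (r 6 : ℚ) = 0 := by
      have := keyE 3 (by omega)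
      rw [val3, hc1] at this
      norm_num at this
      exact_mod_cast this
    by_contra hm6
    exact hr0 6 (by norm_num) (by omega) h6
  · -- c ≥ 4
    exfalso
    have hc4 : (4 : ℚ) ≤ c := by rw [← hn]; exact_mod_cast h1
    have hpos : ∀ k, (0 : ℚ) ≤ aeval c (eP k) ∧ aeval c (eP k) < aeval c (eP (k + 1)) := by
      intro k
      induction k with
      | zero => simp [eP_zero, eP_one]
      | succ k ih =>
        obtain ⟨i1, i2⟩ := ih
        refine ⟨by linarith, ?_⟩
        rw [eP_succ, map_sub, map_mul, map_sub, aeval_X, v2]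
        nlinarith
    rcases Nat.even_or_odd' (m + 1) with ⟨k, hk | hk⟩
    · have h2 := keyE k (by omega)
      rw [← hk, hend] at h2
      have h3 : (0 : ℚ) < aeval c (eP k) := by
        obtain ⟨k', rfl⟩ : ∃ k', k = k' + 1 := ⟨k - 1, by omega⟩
        have := hpos k'
        linarith [this.1, this.2]
      have h4 : (r 1 : ℚ) * a * aeval c (eP k) ≠ 0 := mul_ne_zero (mul_ne_zero hr1' hapos.ne') h3.ne'
      exact h4 (by rw [← h2]; norm_num)
    · have h2 := (key k (by omega)).2
      rw [← hk, hend, map_add] at h2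
      have h3 := hpos k
      have h4 : (0 : ℚ) < aeval c (eP (k + 1)) + aeval c (eP k) := by linarith [h3.1, h3.2]
      exact mul_ne_zero hr1' h4.ne' (by rw [← h2]; norm_num)

end Pool.Agent.Helper49.FH
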