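import Mathlib
import Pool.Agent.Helper49.Girth.GenMem
import Pool.Agent.Helper49.Girth.Dim

set_option autoImplicit false
set_option maxHeartbeats 400000

noncomputable section

namespace Pool.Agent.Helper49.Girth

open MvPolynomial

/-- Images of algebraic elements. -/
theorem cl_map_mem {K K' E R : Type*} [Field K] [Field K'] [Field E] [Field R] [Algebra K E]
    [Algebra K' R] (φ : E →+* R) {s : Set E} {t : Set R}
    (hK : ∀ c : K, φ (algebraMap K E c) ∈ cl K' t) (hs : ∀ a ∈ s, φ a ∈ cl K' t) {a : E}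
    (ha : a ∈ cl K s) : φ a ∈ cl K' t := by
  obtain ⟨p, hp0, hp⟩ := mem_cl'.mp ha
  have hinj : Function.Injective (φ.comp (algebraMap (Algebra.adjoin K s) E)) :=
    φ.injective.comp Subtype.val_injective
  apply root_mem_cl (p.map (φ.comp (algebraMap (Algebra.adjoin K s) E)))
  · exact (Polynomial.map_ne_zero_iff hinj).mpr hp0
  · intro n
    rw [Polynomial.coeff_map]
    have key : ∀ c ∈ Algebra.adjoin K s, φ c ∈ cl K' t := by
      intro c hc
      induction hc using Algebra.adjoin_induction with
      | mem x hx => exact hs x hx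
      | algebraMap r => exact hK r
      | add x y _ _ hx hy => rw [map_add]; exact add_mem hx hy
      | mul x y _ _ hx hy => rw [map_mul]; exact mul_mem hx hy
    exact key _ (p.coeff n).2
  · rw [Polynomial.eval_map, ← Polynomial.hom_eval₂]
    have : Polynomial.eval₂ (algebraMap (Algebra.adjoin K s) E) a p = 0 := hp
    rw [this, map_zero]

namespace Sys

variable {K : Type*} [Field K] {m : ℕ} [NeZero m] (S : Sys K m)

/-- The first coordinates of a non-backtracking walk are algebraic over its ends. -/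
theorem gen_cl [IsAlgClosed K] {n : ℕ} (h : S.Inj K n) {R : Type*} [Field R]
    [Algebra K R] (σ : Bool) (v : Fin m → R) (ω : ℕ → R) (h0 : ω 0 = v 0)
    (ht : ∀ k, 1 ≤ k → k < n → ω (k + 1) ≠ ω (k - 1)) (k : ℕ) (hk : k ≤ n) :
    ω k ∈ cl K (Set.range v ∪ Set.range (S.walk σ v ω n)) := by
  classical
  set s : Set R := Set.range v ∪ ω '' Set.Icc 1 n with hs
  have hv : ∀ i, v i ∈ IntermediateField.adjoin K s := fun i =>
    IntermediateField.subset_adjoin K s (Or.inl ⟨i, rfl⟩)
  have hω : ∀ k, k ≤ n → ω k ∈ IntermediateField.adjoin K s := by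
    intro k hk
    rcases Nat.eq_zero_or_pos k with h1 | h1
    · rw [h1, h0]; exact hv 0
    · exact IntermediateField.subset_adjoin K s (Or.inr ⟨k, ⟨h1, hk⟩, rfl⟩)
  let vE : Fin m → IntermediateField.adjoin K s := fun i => ⟨v i, hv i⟩
  let ωE : ℕ → IntermediateField.adjoin K s := fun k => if hk : k ≤ n then ⟨ω k, hω k hk⟩ else 0
  have hωE : ∀ k, k ≤ n → ((ωE k : IntermediateField.adjoin K s) : R) = ω k := by
    intro k hk
    simp [ωE, hk]
  have hgen : IntermediateField.adjoin K (Set.range vE ∪ ωE '' Set.Icc 1 n) = ⊤ := by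
    apply adjoin_lift_eq_top
    rintro x (⟨i, rfl⟩ | ⟨k, hk, rfl⟩)
    · exact ⟨vE i, Or.inl ⟨i, rfl⟩, rfl⟩
    · exact ⟨ωE k, Or.inr ⟨k, hk, rfl⟩, hωE k hk.2⟩
  have h0E : ωE 0 = vE 0 := by
    apply Subtype.ext
    rw [hωE 0 (Nat.zero_le _), h0]
  have htE : ∀ k, 1 ≤ k → k < n → ωE (k + 1) ≠ ωE (k - 1) := by
    intro k hk1 hk2 hh
    apply ht k hk1 hk2
    have : ((ωE (k + 1) : IntermediateField.adjoin K s) : R) =
      ((ωE (k - 1) : IntermediateField.adjoin K s) : R) := congrArg Subtype.val hh
    rwa [hωE (k + 1) (by omega), hωE (k - 1) (by omega)] at this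
  -- pure inseparability
  let F := IntermediateField.adjoin K (Set.range vE ∪ Set.range (S.walk σ vE ωE n))
  have hpi : IsPurelyInseparable F (IntermediateField.adjoin K s) := by
    have : Nonempty ((IntermediateField.adjoin K s) →+*
      AlgebraicClosure (IntermediateField.adjoin K s)) := ⟨algebraMap _ _⟩
    apply IsPurelyInseparable.of_injective_comp_algebraMap F (IntermediateField.adjoin K s)
      (AlgebraicClosure (IntermediateField.adjoin K s))
    intro f g hfg
    have h1 : ∀ x : F, f x = g x := fun x => RingHom.congr_fun hfg x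
    refine S.ringHom_eq h σ vE ωE h0E htE hgen f g ?_ ?_ ?_
    · ext x
      exact h1 (algebraMap K F x)
    · intro i
      exact h1 ⟨vE i, IntermediateField.subset_adjoin _ _ (Or.inl ⟨i, rfl⟩)⟩
    · intro i
      exact h1 ⟨S.walk σ vE ωE n i, IntermediateField.subset_adjoin _ _ (Or.inr ⟨i, rfl⟩)⟩
  have halg : Algebra.IsAlgebraic F (IntermediateField.adjoin K s) :=
    IsPurelyInseparable.isAlgebraic F (IntermediateField.adjoin K s)
  have h1 : ωE k ∈ cl K (Set.range vE ∪ Set.range (S.walk σ vE ωE n)) := by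
    rw [mem_cl]
    exact halg.isAlgebraic (ωE k)
  have h4 : ∀ i, (IntermediateField.adjoin K s).val (S.walk σ vE ωE n i) = S.walk σ v ω n i := by
    intro i
    rw [S.map_walk_apply (IntermediateField.adjoin K s).val σ vE ωE n i]
    have e : (fun i => (IntermediateField.adjoin K s).val (vE i)) = v := rfl
    rw [e]
    exact congrFun (S.walk_congr σ v _ ω n (fun k _ hk => hωE k hk)) i
  have h5 := cl_map_mem (K := K) (K' := K) ((IntermediateField.adjoin K s).val : _ →+* R)
    (t := Set.range v ∪ Set.range (S.walk σ v ω n)) (fun c => by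
      have : ((IntermediateField.adjoin K s).val : _ →+* R)
        (algebraMap K (IntermediateField.adjoin K s) c) = algebraMap K R c := rfl
      rw [this]
      exact IntermediateField.algebraMap_mem _ c) (by
      rintro a (⟨i, rfl⟩ | ⟨i, rfl⟩)
      · exact mem_cl_of_mem (Or.inl ⟨i, rfl⟩)
      · exact mem_cl_of_mem (Or.inr ⟨i, (h4 i).symm⟩)) h1
  have h3 : ((IntermediateField.adjoin K s).val : _ →+* R) (ωE k) = ω k := hωE k hk
  rwa [h3] at h5

end Sys

end Pool.Agent.Helper49.Girth
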