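import Mathlib
import Pool.Agent.Helper49.FH.Pts
import Pool.Agent.Helper49.Girth.Chain

set_option autoImplicit false
set_option maxHeartbeats 400000

noncomputable section

namespace Pool.Agent.Helper49.Girth

open MvPolynomial

namespace Sys

variable {K : Type*} [Field K] {m : ℕ} [NeZero m] (S : Sys K m)

/-- The end of a long generic walk is generic. -/
theorem walk_indep' [IsAlgClosed K] (hinj : S.Inj K m) {Ω R : Type*} [Field Ω]
    [Algebra K Ω] [Field R] [Algebra K R] [Algebra Ω R] [IsScalarTower K Ω R] (σ : Bool)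
    (v : Fin m → Ω) (ξ : Fin (2 * m) → R) (hξ : AlgebraicIndependent Ω ξ)
    (hspan : cl Ω (Set.range ξ) = ⊤) (ω : ℕ → R) (h0 : ω 0 = algebraMap Ω R (v 0))
    (hω : ∀ k (hk : k < 2 * m), ω (k + 1) = ξ ⟨k, hk⟩) :
    AlgebraicIndependent Ω (S.walk σ (fun i => algebraMap Ω R (v i)) ω (2 * m)) := by
  classical
  set vR : Fin m → R := fun i => algebraMap Ω R (v i) with hvR
  have hm : 0 < m := Nat.pos_of_ne_zero (NeZero.ne m)
  let z : Fin m ⊕ Fin m → R := Sum.elim (S.walk σ vR ω (2 * m)) (fun i => ω (m + i))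
  set F := cl Ω (Set.range z) with hF
  have hz : ∀ a, z a ∈ F := fun a => mem_cl_of_mem ⟨a, rfl⟩
  have hω1 : ∀ k, m ≤ k → k < 2 * m → ω k ∈ F := by
    intro k h1 h2
    have := hz (Sum.inr ⟨k - m, by omega⟩)
    simp only [z, Sum.elim_inr] at this
    rwa [Nat.add_sub_cancel' h1] at this
  have hvF : ∀ i, vR i ∈ F := fun i => F.algebraMap_mem (v i)
  have hend : ∀ i, S.walk σ vR ω (m + m) i ∈ F := by
    intro i
    have := hz (Sum.inl i)
    simp only [z, Sum.elim_inl] at this
    rwa [← two_mul]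
  have hmid : ∀ i, S.walk σ vR ω m i ∈ F := by
    let F' : IntermediateField K R := F.restrictScalars K
    have : ∀ i, S.walk σ vR ω m i ∈ F' :=
      S.walk_mem_rev F' σ vR ω h0 m m (fun i => hend i)
        (fun k h1 h2 => hω1 k h1 (by omega))
    exact this
  have hne : ∀ k, 1 ≤ k → k < m → ω (k + 1) ≠ ω (k - 1) := by
    intro k h1 h2 hh
    rw [hω k (by omega)] at hh
    rcases Nat.lt_or_ge k 2 with h3 | h3
    · have : k - 1 = 0 := by omega
      rw [this, h0] at hh
      have h4 := hξ.transcendental ⟨k, by omega⟩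
      rw [hh] at h4
      exact h4 (isAlgebraic_algebraMap _)
    · have : k - 1 = (k - 2) + 1 := by omega
      rw [this, hω (k - 2) (by omega)] at hh
      have := hξ.injective hh
      simp only [Fin.mk.injEq] at this
      omega
  have hω2 : ∀ k, k ≤ m → ω k ∈ F := by
    intro k hk
    have h1 := S.gen_cl hinj σ vR ω h0 hne k hk
    exact cl_map_mem (K := K) (K' := Ω) (RingHom.id R)
      (fun c => by
        have : (RingHom.id R) (algebraMap K R c) = algebraMap Ω R (algebraMap K Ω c) :=
          IsScalarTower.algebraMap_apply K Ω R c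
        rw [this]
        exact F.algebraMap_mem _) (by
      rintro y (⟨i, rfl⟩ | ⟨i, rfl⟩)
      · exact hvF i
      · exact hmid i) h1
  have hall : ∀ k, k ≤ 2 * m → ω k ∈ F := by
    intro k hk
    rcases Nat.lt_or_ge k m with h1 | h1
    · exact hω2 k (by omega)
    · rcases Nat.lt_or_ge k (2 * m) with h2 | h2
      · exact hω1 k h1 h2
      · have h3 : k = 2 * m := by omega
        have := hz (Sum.inl 0)
        simp only [z, Sum.elim_inl] at this
        rw [S.walk_fst σ vR ω h0] at this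
        rwa [h3]
  have htop : cl Ω (Set.range z) = ⊤ := by
    rw [eq_top_iff, ← hspan]
    apply cl_le_cl
    rintro _ ⟨k, rfl⟩
    rw [← hω k.1 k.2]
    exact hall _ (by omega)
  have hzi : AlgebraicIndependent Ω z := by
    apply algebraicIndependent_of_cl_eq_top z htop
    have h1 := trdeg_lt_of_dep hξ
    refine le_trans (le_of_eq ?_) h1
    simp only [Nat.card_eq_fintype_card, Fintype.card_sum, Fintype.card_fin]
    congr 1
    ring
  exact hzi.comp Sum.inl Sum.inl_injective

/-- One step of the noncontraction argument. -/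
theorem nc_step' [IsAlgClosed K] (hinj : S.Inj K m) {Ω : Type*} [Field Ω]
    [Algebra K Ω] (htrdeg : Algebra.trdeg K Ω < (2 * m + 1 : ℕ)) (σ : Bool)
    (v x : Fin m → Ω) (hx : AlgebraicIndependent K x) (s : Ω)
    (hs : s ∉ cl K (Set.range v ∪ Set.range x)) :
    v 0 ∈ cl K (Set.range (S.nb σ v s) ∪ Set.range x) := by
  classical
  by_contra htr
  let R := FractionRing (MvPolynomial (Fin (2 * m)) Ω)
  let ξ : Fin (2 * m) → R := fun k => algebraMap (MvPolynomial (Fin (2 * m)) Ω) R (X k)
  have hξ : AlgebraicIndependent Ω ξ := indep_fractionRing Ω (Fin (2 * m))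
  have hspan : cl Ω (Set.range ξ) = ⊤ := cl_fractionRing_eq_top Ω (Fin (2 * m))
  let ω : ℕ → R := fun k => match k with
    | 0 => algebraMap Ω R (v 0)
    | (k + 1) => if h : k < 2 * m then ξ ⟨k, h⟩ else 0
  have hω0 : ω 0 = algebraMap Ω R (v 0) := rfl
  have hω : ∀ k (hk : k < 2 * m), ω (k + 1) = ξ ⟨k, hk⟩ := by
    intro k hk
    simp [ω, hk]
  have hwalk := S.walk_indep' hinj σ v ξ hξ hspan ω hω0 hω
  have hboth := hx.sumElim_comp hwalk
  -- all relations hold along even walks
  have hrel : ∀ r, ∀ P : MvPolynomial (Fin m ⊕ Fin m) K, aeval (Sum.elim v x) P = 0 →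
      aeval (Sum.elim (S.walk σ (fun i => algebraMap Ω R (v i)) ω (2 * r))
        (fun i => algebraMap Ω R (x i))) P = 0 := by
    intro r
    induction r with
    | zero =>
      intro P hP
      have h1 := hom_aeval_pair (IsScalarTower.toAlgHom K Ω R) v x P
      rw [hP, map_zero] at h1
      exact h1.symm
    | succ r ih =>
      intro P hP
      have h1 := S.two_steps σ v x s hs htr _ _ ih (ω (2 * r + 1)) (ω (2 * r + 2)) P hP
      have h2 : ty σ (2 * r) = σ := by
        clear h1 ih
        induction r with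
        | zero => rfl
        | succ r ih => rw [Nat.mul_succ, ty_add_two, ih]
      have h3 : ty σ (2 * r + 1) = !σ := by rw [ty_succ, h2]
      have e : 2 * (r + 1) = 2 * r + 1 + 1 := by ring
      rw [e, walk_succ, walk_succ, h3, h2]
      exact h1
  have hindep : AlgebraicIndependent K (Sum.elim v x) := by
    rw [algebraicIndependent_iff]
    intro P hP
    exact hboth.eq_zero_of_aeval_eq_zero P (hrel m P hP)
  have hopt : AlgebraicIndependent K
      (fun o : Option (Fin m ⊕ Fin m) => o.elim s (Sum.elim v x)) := by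
    rw [hindep.option_iff_transcendental]
    intro h1
    apply hs
    rw [mem_cl', ← Set.Sum.elim_range]
    exact h1
  have h1 := trdeg_lt_of_dep hopt
  have h2 := h1.trans_lt htrdeg
  rw [Nat.card_eq_fintype_card, Fintype.card_option, Fintype.card_sum, Fintype.card_fin] at h2
  have h3 : m + m + 1 < 2 * m + 1 := by exact_mod_cast h2
  omega

theorem Good.step' [IsAlgClosed K] (hinj : S.Inj K m) {Ω : Type*} [Field Ω]
    [Algebra K Ω] (htrdeg : Algebra.trdeg K Ω < (2 * m + 1 : ℕ)) (σ : Bool) {S0 : Set Ω}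
    {x y : Fin m → Ω} (h : Good K S0 x y) {s : Ω} (hs : s ∉ cl K S0) :
    Good K (insert s S0) (S.nb σ x s) y := by
  have hle : cl K (Set.range x ∪ Set.range y) ≤ cl K S0 := by
    apply cl_le_cl
    rintro a (⟨i, rfl⟩ | ⟨i, rfl⟩)
    · exact h.hx i
    · exact h.hy i
  have hs1 : s ∉ cl K (Set.range x ∪ Set.range y) := fun h1 => hs (hle h1)
  have hs2 : s ∉ cl K (Set.range x) := fun h1 => hs1 (cl_mono Set.subset_union_left h1)
  have hle2 : cl K S0 ≤ cl K (insert s S0) := cl_mono (Set.subset_insert _ _)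
  have h0 : x 0 ∈ cl K (Set.range (S.nb σ x s) ∪ Set.range y) :=
    S.nc_step' hinj htrdeg σ x y h.gy s hs1
  have hx' : ∀ i, x i ∈ cl K (Set.range (S.nb σ x s) ∪ Set.range y) := by
    intro i
    have h1 := S.nb_mem (cl K (Set.range (S.nb σ x s) ∪ Set.range y)) (!σ) (S.nb σ x s) (x 0)
      (fun i => mem_cl_of_mem (Or.inl ⟨i, rfl⟩)) h0 i
    rwa [nb_nb] at h1
  refine ⟨?_, h.gy, ?_, ?_, ?_⟩
  · apply S.nb_indep
    rw [h.gx.option_iff_transcendental]
    intro h1
    exact hs2 (mem_cl'.mpr h1)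
  · intro i
    exact S.nb_mem _ _ _ _ (fun i => hle2 (h.hx i)) (mem_cl_of_mem (Set.mem_insert _ _)) i
  · intro i
    exact hle2 (h.hy i)
  · rintro a (rfl | ha)
    · have h1 : S.nb σ x a 0 = a := S.nb_zero σ x a
      have h2 : S.nb σ x a 0 ∈ cl K (Set.range (S.nb σ x a) ∪ Set.range y) :=
        mem_cl_of_mem (Or.inl ⟨0, rfl⟩)
      rwa [h1] at h2
    · have h1 := h.hS a ha
      refine (cl_le_cl ?_) h1
      rintro b (⟨i, rfl⟩ | ⟨i, rfl⟩)
      · exact hx' i
      · exact mem_cl_of_mem (Or.inr ⟨i, rfl⟩)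

end Sys

end Pool.Agent.Helper49.Girth
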