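import Mathlib
import Pool.Agent.Helper49.Girth.Jump
import Pool.Agent.Helper49.FH.NC

set_option autoImplicit false
set_option maxHeartbeats 400000

noncomputable section

namespace Pool.Agent.Helper49.Girth

open MvPolynomial

namespace Sys

section wexp

variable {K : Type*} [Field K] {m : ℕ}

/-- the substitution `w ↦ w ^ l` -/
def wexp (l : ℕ) : A0 K m →ₐ[K] A0 K m :=
  (Polynomial.expand (MvPolynomial (Fin m) K) l).restrictScalars K

theorem wdeg_wexp (l : ℕ) (f : A0 K m) : wdeg (wexp l f) = wdeg f * l :=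
  Polynomial.natDegree_expand (R := MvPolynomial (Fin m) K) l f

theorem wcoeff_wexp (l : ℕ) (hl : 0 < l) (f : A0 K m) (n : ℕ) :
    wcoeff (wexp l f) (n * l) = wcoeff f n :=
  Polynomial.coeff_expand_mul (R := MvPolynomial (Fin m) K) hl f n

theorem wexp_cV (l : ℕ) (p : MvPolynomial (Fin m) K) : wexp l (cV K m p) = cV K m p :=
  Polynomial.expand_C (R := MvPolynomial (Fin m) K) l p

theorem wexp_xw (l : ℕ) : wexp l (xw K m) = xw K m ^ l :=
  Polynomial.expand_X (R := MvPolynomial (Fin m) K) (p := l)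

theorem ev2_wexp {E : Type*} [CommRing E] [Algebra K E] (v : Fin m → E) (w : E) (l : ℕ)
    (f : A0 K m) : ev2 K v w (wexp l f) = ev2 K v (w ^ l) f := by
  have : (ev2 K v w).comp (wexp l) = ev2 K v (w ^ l) := by
    apply hom2_ext
    · intro i
      rw [AlgHom.comp_apply, xv, wexp_cV, ev2_cV, ev2_cV]
    · rw [AlgHom.comp_apply, wexp_xw, map_pow, ev2_xw, ev2_xw]
  exact AlgHom.congr_fun this f

end wexp

variable {K : Type*} [Field K] {m : ℕ} [NeZero m] (S : Sys K m)

/-- `d / l` is the slope of the Newton polygon of the jumps. -/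
structure IsSlope (σ : Bool) (d l : ℕ) : Prop where
  dpos : 1 ≤ d
  lpos : 1 ≤ l
  le : ∀ i n, wdeg ((S.G σ i).coeff n) * l ≤ d * n
  lead : ∃ i, wcoeff ((S.G σ i).coeff l) d ≠ 0

theorem exists_slope (h : S.Inj K 2) (σ : Bool) : ∃ d l, S.IsSlope σ d l := by
  classical
  -- the finite set of relevant indices
  let N : ℕ := (Finset.univ.sup fun i : Fin m => (S.G σ i).natDegree) + 1
  have hN : ∀ i, (S.G σ i).natDegree < N := fun i =>
    Nat.lt_succ_of_le (Finset.le_sup (f := fun i : Fin m => (S.G σ i).natDegree)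
      (Finset.mem_univ i))
  let T : Finset (Fin m × ℕ) := Finset.univ ×ˢ Finset.Ico 1 (N + 1)
  have hTne : T.Nonempty := ⟨(0, 1), by
    simp only [T, Finset.mem_product, Finset.mem_univ, true_and, Finset.mem_Ico]
    omega⟩
  obtain ⟨⟨i0, l⟩, hmem, hmax⟩ := Finset.exists_max_image T
    (fun a : Fin m × ℕ => (wdeg ((S.G σ a.1).coeff a.2) : ℚ) / a.2) hTne
  simp only [T, Finset.mem_product, Finset.mem_univ, true_and, Finset.mem_Ico] at hmem hmax
  set d := wdeg ((S.G σ i0).coeff l) with hd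
  have hl : 1 ≤ l := hmem.1
  have hle : ∀ i n, wdeg ((S.G σ i).coeff n) * l ≤ d * n := by
    intro i n
    rcases Nat.eq_zero_or_pos n with hn | hn
    · rw [hn, G_coeff_zero, wdeg_xv]
      simp
    · rcases Nat.lt_or_ge n (N + 1) with hn2 | hn2
      · have h1 := hmax (i, n) ⟨hn, hn2⟩
        simp only at h1
        rw [div_le_div_iff₀ (by exact_mod_cast hn) (by exact_mod_cast hl)] at h1
        exact_mod_cast h1
      · rw [Polynomial.coeff_eq_zero_of_natDegree_lt (by have := hN i; omega), wdeg_zero]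
        simp
  have hd1 : 1 ≤ d := by
    by_contra hd0
    have hd0 : d = 0 := by omega
    have hw : ∀ i n, wdeg ((S.G σ i).coeff n) = 0 := by
      intro i n
      have := hle i n
      rw [hd0, zero_mul] at this
      have h2 : wdeg ((S.G σ i).coeff n) * l = 0 := by omega
      rcases Nat.mul_eq_zero.mp h2 with h3 | h3
      · exact h3
      · omega
    have hcst : ∀ (v : Fin m → K) (w w' t : K) (i : Fin m),
        ev3 K v w t (S.G σ i) = ev3 K v w' t (S.G σ i) := by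
      intro v w w' t i
      rw [ev3_eq_sum, ev3_eq_sum]
      apply Finset.sum_congr rfl
      intro n _
      congr 1
      have h1 : (S.G σ i).coeff n = cV K m (wcoeff ((S.G σ i).coeff n) 0) :=
        Polynomial.eq_C_of_natDegree_eq_zero (R := MvPolynomial (Fin m) K) (hw i n)
      rw [h1, ev2_cV, ev2_cV]
    have h2 : S.nb (!σ) (S.nb σ (0 : Fin m → K) 0) (0 + 1) =
        S.nb (!σ) (S.nb σ (0 : Fin m → K) 1) (0 + 1) := by
      funext i
      have := hcst 0 0 1 1 i
      rw [ev3_G, ev3_G] at this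
      exact this
    let ω : ℕ → K := fun k => if k = 2 then 1 else 0
    let ω' : ℕ → K := fun k => if k = 0 then 0 else 1
    have h3 := h σ 0 ω ω' rfl rfl (by
      intro k hk1 hk2
      have : k = 1 := by omega
      subst this
      simp [ω]) (by
      intro k hk1 hk2
      have : k = 1 := by omega
      subst this
      simp [ω']) (by
      rw [walk_succ, walk_succ, walk_zero, walk_succ, walk_succ, walk_zero]
      simpa [ω, ω', ty] using h2) 1 (by norm_num)
    simp [ω, ω'] at h3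
  refine ⟨d, l, hd1, hl, hle, i0, ?_⟩
  intro h2
  have h3 : (S.G σ i0).coeff l = 0 :=
    (Polynomial.leadingCoeff_eq_zero (R := MvPolynomial (Fin m) K)).mp h2
  rw [h3, wdeg_zero] at hd
  omega

/-- the rescaled jump as polynomials in `v`, `π`, `τ` -/
def GhatS (d l : ℕ) (σ : Bool) (i : Fin m) : A1 K m :=
  ∑ n ∈ Finset.range ((S.G σ i).natDegree + 1),
    Polynomial.monomial n (wrefl (d * n) (wexp l ((S.G σ i).coeff n)))

theorem GhatS_coeff (d l : ℕ) (σ : Bool) (i : Fin m) (n : ℕ) :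
    (S.GhatS d l σ i).coeff n = wrefl (d * n) (wexp l ((S.G σ i).coeff n)) := by
  rw [GhatS, Polynomial.finsetSum_coeff]
  simp only [Polynomial.coeff_monomial]
  rw [Finset.sum_ite_eq']
  split_ifs with h
  · rfl
  · rw [Finset.mem_range, not_lt] at h
    rw [Polynomial.coeff_eq_zero_of_natDegree_lt (by omega), map_zero, wrefl_zero]

/-- the rescaled jump `G(v; 1/π^l, τ π^d)` -/
def jumpS {E : Type*} [CommRing E] [Algebra K E] (d l : ℕ) (σ : Bool) (v : Fin m → E) (π τ : E) :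
    Fin m → E := fun i => ev3 K v π τ (S.GhatS d l σ i)

theorem map_jumpS {E : Type*} [CommRing E] [Algebra K E] {L : Type*} [CommRing L] [Algebra K L]
    (φ : E →ₐ[K] L) (d l : ℕ) (σ : Bool) (v : Fin m → E) (π τ : E) :
    (fun i => φ (S.jumpS d l σ v π τ i)) = S.jumpS d l σ (fun i => φ (v i)) (φ π) (φ τ) := by
  funext i
  exact map_ev3 φ v π τ _

theorem jumpS_eq {E : Type*} [Field E] [Algebra K E] {d l : ℕ} {σ : Bool} (hs : S.IsSlope σ d l)
    (v : Fin m → E) (π τ : E) (hπ : π ≠ 0) :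
    S.jumpS d l σ v π τ = S.nb (!σ) (S.nb σ v (π ^ l)⁻¹) (v 0 + τ * π ^ d) := by
  funext i
  rw [← ev3_G, jumpS, GhatS, map_sum, ev3_eq_sum]
  apply Finset.sum_congr rfl
  intro n _
  rw [ev3_monomial, ev2_wrefl v π hπ _ _ (by rw [wdeg_wexp]; exact hs.le i n), ev2_wexp, mul_pow,
    ← pow_mul, inv_pow]
  ring

theorem jumpS_zero_right {E : Type*} [CommRing E] [Algebra K E] (d l : ℕ) (σ : Bool)
    (v : Fin m → E) (π : E) : S.jumpS d l σ v π 0 = v := by
  funext i
  rw [jumpS, ev3_eq_sum, Finset.sum_range_succ']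
  rw [GhatS_coeff, G_coeff_zero, mul_zero, xv, wexp_cV, wrefl_cV, ev2_cV, aeval_X]
  simp

/-- `τ` is algebraic over `V` and its jump. -/
theorem tau_memS {Ω : Type*} [Field Ω] [Algebra K Ω] {d l : ℕ} {σ : Bool}
    (hsl : S.IsSlope σ d l) (V : Fin m → Ω)
    (hV : AlgebraicIndependent K V) (τ : Ω) (s : Set Ω) (hs1 : ∀ i, V i ∈ cl K s)
    (hs2 : ∀ i, S.jumpS d l σ V 0 τ i ∈ cl K s) : τ ∈ cl K s := by
  obtain ⟨i, hi⟩ := hsl.lead
  have hl := hsl.lpos
  apply root_mem_cl ((S.GhatS d l σ i).map (ev2 K V 0).toRingHom -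
    Polynomial.C (S.jumpS d l σ V 0 τ i))
  · intro h0
    have h1 := congrArg (fun p => Polynomial.coeff p l) h0
    simp only [Polynomial.coeff_sub, Polynomial.coeff_map, Polynomial.coeff_C,
      Polynomial.coeff_zero] at h1
    rw [if_neg (by omega), sub_zero, GhatS_coeff] at h1
    have h2 : ev2 K V 0 (wrefl (d * l) (wexp l ((S.G σ i).coeff l))) = 0 := h1
    rw [ev2_zero, wcoeff_wrefl, wcoeff_wexp l hl] at h2
    exact hi (hV.eq_zero_of_aeval_eq_zero _ h2)
  · intro n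
    rw [Polynomial.coeff_sub, Polynomial.coeff_map, Polynomial.coeff_C]
    apply sub_mem
    · exact ev2_mem _ _ _ hs1 (zero_mem _) _
    · split_ifs
      · exact hs2 i
      · exact zero_mem _
  · rw [Polynomial.eval_sub, Polynomial.eval_map, Polynomial.eval_C, sub_eq_zero]
    rfl

/-- The jump of a generic vertex is generic. -/
theorem jumpS_indep {Ω : Type*} [Field Ω] [Algebra K Ω] (d l : ℕ) (σ : Bool) (V : Fin m → Ω)
    (τ : Ω) (hV : AlgebraicIndependent K (fun o : Option (Fin m) => o.elim τ V)) :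
    AlgebraicIndependent K (S.jumpS d l σ V 0 τ) := by
  rw [algebraicIndependent_iff]
  intro P hP
  let φ : MvPolynomial (Option (Fin m)) K →ₐ[K] Ω := aeval (fun o : Option (Fin m) => o.elim τ V)
  let Vu : Fin m → MvPolynomial (Option (Fin m)) K := fun i => X (some i)
  have h1 : φ (aeval (S.jumpS d l σ Vu 0 (X none)) P) = 0 := by
    rw [MvPolynomial.comp_aeval_apply]
    have e := S.map_jumpS φ d l σ Vu 0 (X none)
    rw [e]
    have e1 : (fun i => φ (Vu i)) = V := by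
      funext i
      simp [φ, Vu]
    rw [e1, map_zero]
    have e2 : φ (X none) = τ := by simp [φ]
    rw [e2]
    exact hP
  have h2 : aeval (S.jumpS d l σ Vu 0 (X none)) P = 0 := hV.eq_zero_of_aeval_eq_zero _ h1
  let ψ : MvPolynomial (Option (Fin m)) K →ₐ[K] MvPolynomial (Fin m) K :=
    aeval (fun o : Option (Fin m) => o.elim 0 X)
  have h3 := congrArg ψ h2
  rw [map_zero, MvPolynomial.comp_aeval_apply] at h3
  have e := S.map_jumpS ψ d l σ Vu 0 (X none)
  rw [e] at h3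
  have e1 : (fun i => ψ (Vu i)) = X := by
    funext i
    simp [ψ, Vu]
  have e2 : ψ (X none) = 0 := by simp [ψ]
  rw [e1, e2, jumpS_zero_right, MvPolynomial.aeval_X_left] at h3
  exact h3

theorem jumpS_mem {Ω : Type*} [Field Ω] [Algebra K Ω] (F : IntermediateField K Ω) (d l : ℕ)
    (σ : Bool) (v : Fin m → Ω) (π τ : Ω) (hv : ∀ i, v i ∈ F) (hπ : π ∈ F) (hτ : τ ∈ F)
    (i : Fin m) : S.jumpS d l σ v π τ i ∈ F := by
  have h := S.map_jumpS F.val d l σ (fun i => (⟨v i, hv i⟩ : F)) ⟨π, hπ⟩ ⟨τ, hτ⟩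
  have h2 : S.jumpS d l σ v π τ i =
      F.val (S.jumpS d l σ (fun i => (⟨v i, hv i⟩ : F)) ⟨π, hπ⟩ ⟨τ, hτ⟩ i) := by
    rw [congrFun h i]; rfl
  rw [h2]
  exact (S.jumpS d l σ (fun i => (⟨v i, hv i⟩ : F)) ⟨π, hπ⟩ ⟨τ, hτ⟩ i).2

/-- Noncontraction: the ends of a degenerate walk generate (up to algebraic elements) its field
of definition. The walk has `M` steps. -/
theorem chainS [IsAlgClosed K] (hinj : S.Inj K m)
    {Ω : Type*} [Field Ω] [Algebra K Ω] (htrdeg : Algebra.trdeg K Ω < (2 * m + 1 : ℕ)) (σ : Bool)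
    (M j : ℕ) (hj1 : 1 ≤ j) (hj : j < M) {d l : ℕ} (hsl : S.IsSlope (ty σ (j - 1)) d l)
    (v0 : Fin m → Ω) (ω : ℕ → Ω) (h0 : ω 0 = v0 0)
    (hind : AlgebraicIndependent K (Sum.elim (S.walk σ v0 ω (j - 1))
      (fun k : {k : ℕ // k ≤ M ∧ k ≠ j - 1 ∧ k ≠ j} => ω k))) :
    Good K (Set.range (S.walk σ v0 ω (j - 1)) ∪ ω '' {k : ℕ | k ≤ M ∧ k ≠ j - 1 ∧ k ≠ j}) v0
      (S.walk (ty σ (j + 1)) (S.jumpS d l (ty σ (j - 1)) (S.walk σ v0 ω (j - 1)) 0 (ω (j + 1)))
        (fun k => ω (j + 1 + k)) (M - j - 1)) := by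
  set τ := ω (j + 1) with hτ
  set V := S.walk σ v0 ω (j - 1) with hV
  set V' := S.jumpS d l (ty σ (j - 1)) V 0 τ with hV'
  set A : Set ℕ := {k : ℕ | k ≤ M ∧ k ≠ j - 1 ∧ k ≠ j} with hA
  -- freeness
  have hfree : ∀ (T : Set ℕ) (k : ℕ), T ⊆ A → k ∈ A → k ∉ T →
      ω k ∉ cl K (Set.range V ∪ ω '' T) := by
    intro T k hT hk hkT
    have h1 := notMem_cl_of_independent hind
      (J := Set.range Sum.inl ∪ Sum.inr '' {a : {k : ℕ // k ≤ M ∧ k ≠ j - 1 ∧ k ≠ j} | (a : ℕ) ∈ T})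
      (i := Sum.inr ⟨k, hk⟩) (by
        rintro (⟨i, hi⟩ | ⟨a, ha, hi⟩)
        · cases hi
        · have := Sum.inr_injective hi
          rw [this] at ha
          exact hkT ha)
    simp only [Sum.elim_inr] at h1
    intro h2
    apply h1
    refine (cl_mono ?_) h2
    rintro a (⟨i, rfl⟩ | ⟨k', hk', rfl⟩)
    · exact ⟨Sum.inl i, Or.inl ⟨i, rfl⟩, rfl⟩
    · exact ⟨Sum.inr ⟨k', hT hk'⟩, Or.inr ⟨⟨k', hT hk'⟩, hk', rfl⟩, rfl⟩
  have hVind : AlgebraicIndependent K V := hind.comp Sum.inl Sum.inl_injective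
  have hj1A : j + 1 ∈ A := ⟨by omega, by omega, by omega⟩
  have hopt : AlgebraicIndependent K (fun o : Option (Fin m) => o.elim τ V) := by
    rw [hVind.option_iff_transcendental]
    intro h1
    have h2 := hfree ∅ (j + 1) (Set.empty_subset _) hj1A (Set.notMem_empty _)
    rw [Set.image_empty, Set.union_empty] at h2
    exact h2 (mem_cl'.mpr h1)
  -- the base case
  have base : Good K (Set.range V ∪ ω '' {j + 1}) V V' := by
    refine ⟨hVind, S.jumpS_indep _ _ _ V τ hopt, ?_, ?_, ?_⟩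
    · intro i
      exact mem_cl_of_mem (Or.inl ⟨i, rfl⟩)
    · intro i
      exact S.jumpS_mem (cl K (Set.range V ∪ ω '' {j + 1})) d l (ty σ (j - 1)) V 0 τ
        (fun i => mem_cl_of_mem (Or.inl ⟨i, rfl⟩)) (zero_mem _)
        (mem_cl_of_mem (Or.inr ⟨j + 1, rfl, rfl⟩)) i
    · rintro a (⟨i, rfl⟩ | ⟨k, hk, rfl⟩)
      · exact mem_cl_of_mem (Or.inl ⟨i, rfl⟩)
      · rw [Set.mem_singleton_iff] at hk
        rw [hk]
        exact S.tau_memS hsl V hVind τ _
          (fun i => mem_cl_of_mem (Or.inl ⟨i, rfl⟩)) (fun i => mem_cl_of_mem (Or.inr ⟨i, rfl⟩))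
  -- steps to the right
  have right : ∀ c, c ≤ M - j - 1 → Good K (Set.range V ∪ ω '' {k | j + 1 ≤ k ∧ k ≤ j + 1 + c}) V
      (S.walk (ty σ (j + 1)) V' (fun k => ω (j + 1 + k)) c) := by
    intro c
    induction c with
    | zero =>
      intro _
      have : {k : ℕ | j + 1 ≤ k ∧ k ≤ j + 1 + 0} = {j + 1} := by
        ext k; simp only [Set.mem_ofPred_eq, Set.mem_singleton_iff]; omega
      rw [this]
      exact base
    | succ c ih =>
      intro hc
      have hg := ih (by omega)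
      have hfr := hfree {k | j + 1 ≤ k ∧ k ≤ j + 1 + c} (j + 1 + (c + 1))
        (fun k hk => by
          simp only [Set.mem_ofPred_eq] at hk
          exact ⟨by omega, by omega, by omega⟩) ⟨by omega, by omega, by omega⟩ (by
          simp only [Set.mem_ofPred_eq]; omega)
      have h1 := (Good.step' S hinj htrdeg (ty (ty σ (j + 1)) c) hg.symm hfr).symm
      have h2 : insert (ω (j + 1 + (c + 1))) (Set.range V ∪ ω '' {k | j + 1 ≤ k ∧ k ≤ j + 1 + c}) =
          Set.range V ∪ ω '' {k | j + 1 ≤ k ∧ k ≤ j + 1 + (c + 1)} := by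
        have h3 : {k : ℕ | j + 1 ≤ k ∧ k ≤ j + 1 + (c + 1)} =
            insert (j + 1 + (c + 1)) {k | j + 1 ≤ k ∧ k ≤ j + 1 + c} := by
          ext k; simp only [Set.mem_ofPred_eq, Set.mem_insert_iff]; omega
        rw [h3, Set.image_insert_eq, Set.union_insert]
      rw [h2] at h1
      exact h1
  -- steps to the left
  have left : ∀ a, a ≤ j - 1 → Good K (Set.range V ∪ ω '' {k | (j + 1 ≤ k ∧ k ≤ M) ∨
      (j - 1 - a ≤ k ∧ k < j - 1)}) (S.walk σ v0 ω (j - 1 - a))
      (S.walk (ty σ (j + 1)) V' (fun k => ω (j + 1 + k)) (M - j - 1)) := by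
    intro a
    induction a with
    | zero =>
      intro _
      have h1 := right (M - j - 1) le_rfl
      have : {k : ℕ | (j + 1 ≤ k ∧ k ≤ M) ∨ (j - 1 - 0 ≤ k ∧ k < j - 1)} =
          {k | j + 1 ≤ k ∧ k ≤ j + 1 + (M - j - 1)} := by
        ext k; simp only [Set.mem_ofPred_eq]; omega
      rw [this]
      exact h1
    | succ a ih =>
      intro ha
      have hg := ih (by omega)
      set k0 := j - 1 - (a + 1) with hk0
      have hk1 : j - 1 - a = k0 + 1 := by omega
      have hfr := hfree {k | (j + 1 ≤ k ∧ k ≤ M) ∨ (j - 1 - a ≤ k ∧ k < j - 1)} k0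
        (fun k hk => by
          simp only [Set.mem_ofPred_eq] at hk
          exact ⟨by omega, by omega, by omega⟩) ⟨by omega, by omega, by omega⟩ (by
          simp only [Set.mem_ofPred_eq]; omega)
      have h1 := Good.step' S hinj htrdeg (ty σ (k0 + 1)) hg hfr
      have h2 : insert (ω k0) (Set.range V ∪ ω '' {k | (j + 1 ≤ k ∧ k ≤ M) ∨
          (j - 1 - a ≤ k ∧ k < j - 1)}) =
          Set.range V ∪ ω '' {k | (j + 1 ≤ k ∧ k ≤ M) ∨ (k0 ≤ k ∧ k < j - 1)} := by
        have h3 : {k : ℕ | (j + 1 ≤ k ∧ k ≤ M) ∨ (k0 ≤ k ∧ k < j - 1)} =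
            insert k0 {k | (j + 1 ≤ k ∧ k ≤ M) ∨ (j - 1 - a ≤ k ∧ k < j - 1)} := by
          ext k; simp only [Set.mem_ofPred_eq, Set.mem_insert_iff]; omega
        rw [h3, Set.image_insert_eq, Set.union_insert]
      rw [h2, hk1] at h1
      have h4 : S.nb (ty σ (k0 + 1)) (S.walk σ v0 ω (k0 + 1)) (ω k0) = S.walk σ v0 ω k0 := by
        have := S.walk_rev σ v0 ω k0
        rw [S.walk_fst σ v0 ω h0] at this
        exact this.symm
      rw [h4] at h1
      exact h1
  have h1 := left (j - 1) le_rfl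
  have h2 : {k : ℕ | (j + 1 ≤ k ∧ k ≤ M) ∨ (j - 1 - (j - 1) ≤ k ∧ k < j - 1)} = A := by
    ext k
    simp only [Set.mem_ofPred_eq, hA]
    omega
  rw [h2, Nat.sub_self] at h1
  exact h1

end Sys

end Pool.Agent.Helper49.Girth
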