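import Mathlib
import Pool.Agent.Helper49.FH.Jump
import Pool.Agent.Helper49.Girth.Res
import Pool.Agent.Helper49.Girth.Linear

set_option autoImplicit false
set_option maxHeartbeats 400000

noncomputable section

namespace Pool.Agent.Helper49.Girth

open MvPolynomial

universe u

namespace Sys

section

variable (K : Type u) [Field K] (m : ℕ) [NeZero m] (n : ℕ)

/-- the coordinate ring of walks of length `n` -/
abbrev WW := MvPolynomial (Fin m ⊕ Fin n) K

/-- the universal starting vertex -/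
def vW : Fin m → WW K m n := fun i => X (Sum.inl i)

/-- the universal first coordinates -/
def ωW (k : ℕ) : WW K m n :=
  if h : 0 < k ∧ k ≤ n then X (Sum.inr ⟨k - 1, by omega⟩) else X (Sum.inl 0)

variable {K m n}

theorem ωW_zero : ωW K m n 0 = vW K m n 0 := by
  simp [ωW, vW]

theorem ωW_pos (k : ℕ) (h1 : 0 < k) (h2 : k ≤ n) :
    ωW K m n k = X (Sum.inr ⟨k - 1, by omega⟩) := by
  rw [ωW, dif_pos ⟨h1, h2⟩]

theorem ωW_inj {k l : ℕ} (hk : k ≤ n) (hl : l ≤ n) (h : ωW K m n k = ωW K m n l) : k = l := by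
  rcases Nat.eq_zero_or_pos k with hk0 | hk0 <;> rcases Nat.eq_zero_or_pos l with hl0 | hl0
  · omega
  · rw [hk0, ωW_zero, ωW_pos l hl0 hl, vW] at h
    have := MvPolynomial.X_injective h
    cases this
  · rw [hl0, ωW_zero, ωW_pos k hk0 hk, vW] at h
    have := MvPolynomial.X_injective h
    cases this
  · rw [ωW_pos l hl0 hl, ωW_pos k hk0 hk] at h
    have := MvPolynomial.X_injective h
    simp only [Sum.inr.injEq, Fin.mk.injEq] at this
    omega

omit [NeZero m] in
theorem W_inl (i : Fin m) : (X (Sum.inl i) : WW K m n) = vW K m n i := rfl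

theorem W_inr (i : Fin n) : (X (Sum.inr i) : WW K m n) = ωW K m n (i + 1) := by
  rw [ωW_pos _ (by omega) (by omega)]
  simp

/-- membership of all variables in a subfield -/
theorem all_W_mem {Ω : Type*} [Field Ω] [Algebra K Ω] (r : WW K m n →ₐ[K] Ω)
    (F : IntermediateField K Ω) (hv : ∀ i, r (vW K m n i) ∈ F)
    (hω : ∀ k, 1 ≤ k → k ≤ n → r (ωW K m n k) ∈ F) (i : Fin m ⊕ Fin n) : r (X i) ∈ F := by
  rcases i with i | i
  · exact hv i
  · rw [W_inr]
    exact hω _ (by omega) (by omega)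

theorem clW_eq_top {Ω : Type*} [Field Ω] [Algebra K Ω] (r : WW K m n →ₐ[K] Ω)
    (hspan : cl K (Set.range fun i => r (X i)) = ⊤) (s : Set Ω)
    (hv : ∀ i, r (vW K m n i) ∈ cl K s)
    (hω : ∀ k, 1 ≤ k → k ≤ n → r (ωW K m n k) ∈ cl K s) : cl K s = ⊤ := by
  rw [eq_top_iff, ← hspan]
  apply cl_le_cl
  rintro _ ⟨i, rfl⟩
  exact all_W_mem r _ hv hω i

theorem primeW (k : ℕ) (h1 : 0 < k) (h2 : k ≤ n) : Prime (ωW K m n k) := by
  rw [ωW_pos k h1 h2]
  exact prime_X' _

variable (K m n) in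
/-- the difference whose vanishing means backtracking at the `k`-th vertex -/
def tW (k : ℕ) : WW K m n := ωW K m n (k + 1) - ωW K m n (k - 1)

theorem tW_prime (k : ℕ) (h1 : 1 ≤ k) (h2 : k < n) : Prime (tW K m n k) := by
  rw [tW, ωW_pos (k + 1) (by omega) (by omega)]
  rcases Nat.eq_zero_or_pos (k - 1) with h | h
  · rw [h, ωW_zero, vW]
    exact prime_X_sub_X (by simp)
  · rw [ωW_pos (k - 1) h (by omega)]
    apply prime_X_sub_X
    intro hh
    simp only [Sum.inr.injEq, Fin.mk.injEq] at hh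
    omega

open Classical in
/-- setting `ω_j = 0` -/
def zW (j : ℕ) : WW K m n →ₐ[K] WW K m n :=
  aeval (fun i => if (X i : WW K m n) = ωW K m n j then 0 else X i)

open Classical in
theorem zW_ωW (j : ℕ) (hj : j ≤ n) (k : ℕ) (hk : k ≤ n) :
    zW j (ωW K m n k) = if k = j then 0 else ωW K m n k := by
  have key : ∀ i, (X i : WW K m n) = ωW K m n k → zW j (ωW K m n k) =
      if k = j then 0 else ωW K m n k := by
    intro i hi
    have e : zW j (ωW K m n k) = if (X i : WW K m n) = ωW K m n j then 0 else X i := by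
      rw [← hi, zW, aeval_X]
    rw [e]
    by_cases h : k = j
    · have h2 : (X i : WW K m n) = ωW K m n j := by rw [hi, h]
      rw [if_pos h2, if_pos h]
    · have h2 : (X i : WW K m n) ≠ ωW K m n j := by
        intro h2
        exact h (ωW_inj hk hj (by rw [← hi, h2]))
      rw [if_neg h, if_neg h2, hi]
  rcases Nat.eq_zero_or_pos k with h | h
  · exact key (Sum.inl 0) (by rw [h, ωW_zero]; rfl)
  · exact key (Sum.inr ⟨k - 1, by omega⟩) (by rw [ωW_pos k h hk])

theorem not_dvd_of_zW (j : ℕ) (hj : j ≤ n) (T : WW K m n) (h : zW j T ≠ 0) :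
    ¬ ωW K m n j ∣ T := by
  rintro ⟨c, rfl⟩
  apply h
  rw [map_mul, zW_ωW j hj j hj, if_pos rfl, zero_mul]

end

variable {K : Type u} [Field K] {m : ℕ} [NeZero m] (S : Sys K m)

/-- the ends of the universal walk of length `n` -/
def ρ (n : ℕ) (σ : Bool) : MvPolynomial (Fin m ⊕ Fin m) K →ₐ[K] WW K m n :=
  aeval (Sum.elim (vW K m n) (S.walk σ (vW K m n) (ωW K m n) n))

theorem ρ_inl (n : ℕ) (σ : Bool) (i : Fin m) : S.ρ n σ (X (Sum.inl i)) = vW K m n i := by
  simp [ρ]

theorem ρ_inr (n : ℕ) (σ : Bool) (i : Fin m) :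
    S.ρ n σ (X (Sum.inr i)) = S.walk σ (vW K m n) (ωW K m n) n i := by
  simp [ρ]

/-- Values of all polynomials in the ends. -/
theorem hom_ρ (n : ℕ) {Ω : Type*} [CommRing Ω] [Algebra K Ω] (r : WW K m n →ₐ[K] Ω) (σ : Bool)
    (P : MvPolynomial (Fin m ⊕ Fin m) K) : r (S.ρ n σ P) =
      aeval (Sum.elim (fun i => r (vW K m n i))
      (S.walk σ (fun i => r (vW K m n i)) (fun k => r (ωW K m n k)) n)) P := by
  rw [ρ, MvPolynomial.comp_aeval_apply]
  congr 2
  funext i
  rcases i with i | i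
  · rfl
  · simp only [Sum.elim_inr]
    exact S.map_walk_apply r σ _ _ _ _

/-- The first coordinates are algebraic over the ends (walks of length `n` with
`Inj n`). -/
theorem ρ_span [IsAlgClosed K] {n : ℕ} (hinj : S.Inj K n) {Ω : Type*} [Field Ω]
    [Algebra K Ω] (r : WW K m n →ₐ[K] Ω) (σ : Bool)
    (hne : ∀ k, 1 ≤ k → k < n → r (ωW K m n (k + 1)) ≠ r (ωW K m n (k - 1)))
    (hspan : cl K (Set.range fun i => r (X i)) = ⊤) :
    cl K (Set.range fun i => r (S.ρ n σ (X i))) = ⊤ := by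
  apply clW_eq_top r hspan
  · intro i
    exact mem_cl_of_mem ⟨Sum.inl i, by simp only [ρ_inl]⟩
  · intro k h1 hk
    have h1 := S.gen_cl hinj σ (fun i => r (vW K m n i)) (fun k => r (ωW K m n k))
      (by simp only [ωW_zero]) hne k hk
    refine cl_mono ?_ h1
    rintro _ (⟨i, rfl⟩ | ⟨i, rfl⟩)
    · exact ⟨Sum.inl i, by simp only [ρ_inl]⟩
    · refine ⟨Sum.inr i, ?_⟩
      simp only [ρ_inr]
      exact S.map_walk_apply r σ _ _ _ _

/-- The ends and the last but one first coordinate generate, for walks of length `n + 1`. -/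
theorem ρ_span_succ [IsAlgClosed K] {n : ℕ} (hinj : S.Inj K n) {Ω : Type*} [Field Ω]
    [Algebra K Ω] (r : WW K m (n + 1) →ₐ[K] Ω) (σ : Bool)
    (hne : ∀ k, 1 ≤ k → k < n → r (ωW K m (n + 1) (k + 1)) ≠ r (ωW K m (n + 1) (k - 1)))
    (hspan : cl K (Set.range fun i => r (X i)) = ⊤) :
    cl K (Set.range fun o : Option (Fin m ⊕ Fin m) =>
      o.elim (r (ωW K m (n + 1) n)) (fun i => r (S.ρ (n + 1) σ (X i)))) = ⊤ := by
  set s := Set.range fun o : Option (Fin m ⊕ Fin m) =>
      o.elim (r (ωW K m (n + 1) n)) (fun i => r (S.ρ (n + 1) σ (X i))) with hs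
  set v : Fin m → Ω := fun i => r (vW K m (n + 1) i) with hv
  set ω : ℕ → Ω := fun k => r (ωW K m (n + 1) k) with hω
  have h0 : ω 0 = v 0 := by simp only [hω, hv, ωW_zero]
  have hvs : ∀ i, v i ∈ cl K s := fun i =>
    mem_cl_of_mem ⟨some (Sum.inl i), by simp only [Option.elim_some, ρ_inl, hv]⟩
  have hend : ∀ i, S.walk σ v ω (n + 1) i ∈ cl K s := by
    intro i
    refine mem_cl_of_mem ⟨some (Sum.inr i), ?_⟩
    simp only [Option.elim_some, ρ_inr]
    exact S.map_walk_apply r σ _ _ _ _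
  have hn : ω n ∈ cl K s := mem_cl_of_mem ⟨none, rfl⟩
  have hlast : ω (n + 1) ∈ cl K s := by
    have := hend 0
    rwa [S.walk_fst σ v ω h0] at this
  have hwn : ∀ i, S.walk σ v ω n i ∈ cl K s :=
    S.walk_mem_rev (cl K s) σ v ω h0 1 n hend (fun k h1 h2 => by
      have : k = n := by omega
      rw [this]; exact hn)
  apply clW_eq_top r hspan
  · exact hvs
  · intro k h1 hk
    rcases Nat.lt_or_ge n k with h2 | h2
    · have : k = n + 1 := by omega
      rw [this]
      exact hlast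
    · have h3 := S.gen_cl hinj σ v ω h0 hne k h2
      refine (cl_le_cl ?_) h3
      rintro _ (⟨i, rfl⟩ | ⟨i, rfl⟩)
      · exact hvs i
      · exact hwn i

end Sys

end Pool.Agent.Helper49.Girth
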