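import Mathlib
import Pool.Agent.Helper49.FH.Rings

set_option autoImplicit false
set_option maxHeartbeats 400000

noncomputable section

namespace Pool.Agent.Helper49.Girth

open MvPolynomial

universe u

theorem prime_rename_some {K : Type*} [Field K] {ι : Type*} {R : MvPolynomial ι K}
    (hR : Prime R) : Prime (rename (some : ι → Option ι) R) := by
  have h1 : optionEquivLeft K ι (rename some R) = Polynomial.C R := by
    have h2 : ((optionEquivLeft K ι : MvPolynomial (Option ι) K →ₐ[K] _).comp
        (rename (some : ι → Option ι))) =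
        (Polynomial.CAlgHom (R := MvPolynomial ι K) (A := MvPolynomial ι K)).restrictScalars K := by
      apply MvPolynomial.algHom_ext
      intro i
      simp
    exact AlgHom.congr_fun h2 R
  have h3 : Prime (optionEquivLeft K ι (rename some R)) := by
    rw [h1]
    exact Polynomial.prime_C_iff.mpr hR
  exact (MulEquiv.prime_iff (optionEquivLeft K ι).toMulEquiv).mp h3

/-- The kernel is generated by any prime element in it, if one more parameter suffices. -/
theorem rel_ker {K : Type*} [Field K] {ι : Type} [Finite ι] {Ω : Type*} [Field Ω] [Algebra K Ω]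
    (φ : MvPolynomial ι K →ₐ[K] Ω) (a : Ω)
    (hspan : cl K (Set.range fun o : Option ι => o.elim a (fun i => φ (X i))) = ⊤)
    (htr : (Nat.card ι : Cardinal) ≤ Algebra.trdeg K Ω) (R : MvPolynomial ι K) (hR : Prime R)
    (hRφ : φ R = 0) (P : MvPolynomial ι K) : φ P = 0 ↔ R ∣ P := by
  constructor
  swap
  · rintro ⟨c, rfl⟩
    rw [map_mul, hRφ, zero_mul]
  intro hP
  let φ' : MvPolynomial (Option ι) K →ₐ[K] Ω :=
    aeval (fun o : Option ι => o.elim a (fun i => φ (X i)))
  have hφ' : ∀ Q, φ' (rename some Q) = φ Q := by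
    intro Q
    have h2 : φ'.comp (rename (some : ι → Option ι)) = φ := by
      apply MvPolynomial.algHom_ext
      intro i
      simp [φ']
    exact AlgHom.congr_fun h2 Q
  have hker : RingHom.ker φ' ≠ ⊥ := by
    intro h
    have h1 : rename some R ∈ RingHom.ker φ' := by
      rw [RingHom.mem_ker, hφ', hRφ]
    rw [h, Ideal.mem_bot] at h1
    exact (prime_rename_some hR).ne_zero h1
  have hspan' : cl K (Set.range fun i => φ' (X i)) = ⊤ := by
    have : (fun i => φ' (X i)) = fun o : Option ι => o.elim a (fun i => φ (X i)) := by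
      funext o
      simp [φ']
    rw [this]
    exact hspan
  obtain ⟨F, hF, hkF⟩ := ker_principal φ' hspan' (by
    have : Nat.card (Option ι) = Nat.card ι + 1 := Finite.card_option
    rw [this]
    push_cast
    exact add_le_add_left htr 1) hker
  have h1 : F ∣ rename some R := by
    rw [← Ideal.mem_span_singleton, ← hkF, RingHom.mem_ker, hφ', hRφ]
  have h2 : F ∣ rename some P := by
    rw [← Ideal.mem_span_singleton, ← hkF, RingHom.mem_ker, hφ', hP]
  have h3 : rename some R ∣ rename some P :=
    ((hF.associated_of_dvd (prime_rename_some hR) h1).symm.dvd).trans h2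
  let ψ : MvPolynomial (Option ι) K →ₐ[K] MvPolynomial ι K :=
    aeval (fun o : Option ι => o.elim 0 X)
  have hψ : ∀ Q, ψ (rename some Q) = Q := by
    intro Q
    have h2 : ψ.comp (rename (some : ι → Option ι)) = AlgHom.id K _ := by
      apply MvPolynomial.algHom_ext
      intro i
      simp [ψ]
    exact AlgHom.congr_fun h2 Q
  obtain ⟨c, hc⟩ := h3
  refine ⟨ψ c, ?_⟩
  rw [← hψ P, hc, map_mul, hψ]

/-- Embedding of an algebraic extension. -/
theorem lift_alg {K : Type*} [Field K] {ι : Type*} {L κ : Type*} [Field L] [Field κ]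
    [Algebra K L] [Algebra K κ] (φ : MvPolynomial ι K →ₐ[K] L) (ψ : MvPolynomial ι K →ₐ[K] κ)
    (hspan : cl K (Set.range fun i => φ (X i)) = ⊤) (h : ∀ P, φ P = 0 ↔ ψ P = 0) :
    ∃ g : L →ₐ[K] AlgebraicClosure κ, ∀ P, g (φ P) = algebraMap κ (AlgebraicClosure κ) (ψ P) := by
  have halg := cl_eq_top_iff.mp hspan
  have hrange : Algebra.adjoin K (Set.range fun i => φ (X i)) = φ.range := by
    have h1 : φ = aeval (fun i => φ (X i)) := by
      apply MvPolynomial.algHom_ext
      intro i
      simp
    rw [Algebra.adjoin_range_eq_range_aeval, ← h1]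
  rw [hrange] at halg
  let j : φ.range →ₐ[K] AlgebraicClosure κ :=
    AlgHom.liftOfSurjective φ.rangeRestrict φ.rangeRestrict_surjective
      ((IsScalarTower.toAlgHom K κ (AlgebraicClosure κ)).comp ψ) (by
        intro P hP
        rw [RingHom.mem_ker] at hP ⊢
        have h1 : φ P = 0 := congrArg Subtype.val hP
        change algebraMap κ (AlgebraicClosure κ) (ψ P) = 0
        rw [(h P).mp h1, map_zero])
  have hj : ∀ P, j (φ.rangeRestrict P) = algebraMap κ (AlgebraicClosure κ) (ψ P) := fun P =>
    AlgHom.liftOfSurjective_apply _ _ _ _ P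
  have hjinj : Function.Injective j := by
    rw [injective_iff_map_eq_zero]
    intro x hx
    obtain ⟨P, rfl⟩ := φ.rangeRestrict_surjective x
    rw [hj] at hx
    have h1 : ψ P = 0 := (algebraMap κ (AlgebraicClosure κ)).injective (by rw [hx, map_zero])
    exact Subtype.ext ((h P).mpr h1)
  let _ : Algebra φ.range (AlgebraicClosure κ) := j.toRingHom.toAlgebra
  have hfs : FaithfulSMul φ.range (AlgebraicClosure κ) :=
    (faithfulSMul_iff_algebraMap_injective φ.range (AlgebraicClosure κ)).mpr hjinj
  have htower : IsScalarTower K φ.range (AlgebraicClosure κ) := by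
    apply IsScalarTower.of_algebraMap_eq
    intro c
    exact (j.commutes c).symm
  let g : L →ₐ[φ.range] AlgebraicClosure κ := IsAlgClosed.lift
  refine ⟨g.restrictScalars K, fun P => ?_⟩
  have h1 : φ P = algebraMap φ.range L (φ.rangeRestrict P) := rfl
  have h2 : (g.restrictScalars K) (φ P) = g (algebraMap φ.range L (φ.rangeRestrict P)) := rfl
  rw [h2, g.commutes]
  exact hj P

namespace Sys

variable {K : Type u} [Field K] {m : ℕ} [NeZero m] (S : Sys K m)

/-- The inclusion of the coordinate ring in its field of fractions. -/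
def cW (K : Type u) [Field K] (m n : ℕ) : WW K m n →ₐ[K] FractionRing (WW K m n) :=
  IsScalarTower.toAlgHom K (WW K m n) (FractionRing (WW K m n))

omit [NeZero m] in
theorem cW_injective (n : ℕ) : Function.Injective (cW K m n) :=
  IsFractionRing.injective (WW K m n) (FractionRing (WW K m n))

/-- The ends of the generic walk of length `n` satisfy exactly one relation, if `n = m - 1`. -/
theorem exists_rel [IsAlgClosed K] {n : ℕ} (hn : n + 1 = m) (hinj : S.Inj K n) (σ : Bool) :
    (cl K (Set.range fun i => cW K m n (S.ρ n σ (X i))) = ⊤) ∧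
    ∃ R : MvPolynomial (Fin m ⊕ Fin m) K, Prime R ∧ ∀ P, S.ρ n σ P = 0 ↔ R ∣ P := by
  have hspan0 : cl K (Set.range fun i => cW K m n (X i)) = ⊤ :=
    cl_fractionRing_eq_top K (Fin m ⊕ Fin n)
  have hind0 : AlgebraicIndependent K (fun i => cW K m n (X i)) :=
    indep_fractionRing K (Fin m ⊕ Fin n)
  have hne : ∀ k, 1 ≤ k → k < n → cW K m n (ωW K m n (k + 1)) ≠ cW K m n (ωW K m n (k - 1)) := by
    intro k h1 h2 h3
    have := ωW_inj (by omega) (by omega) (cW_injective n h3)
    omega
  have hspan := S.ρ_span hinj (cW K m n) σ hne hspan0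
  refine ⟨hspan, ?_⟩
  let φ : MvPolynomial (Fin m ⊕ Fin m) K →ₐ[K] FractionRing (WW K m n) :=
    (cW K m n).comp (S.ρ n σ)
  have hcard : Nat.card (Fin m ⊕ Fin m) = Nat.card (Fin m ⊕ Fin n) + 1 := by
    simp only [Nat.card_eq_fintype_card, Fintype.card_sum, Fintype.card_fin]
    omega
  -- the transcendence degree
  have htr1 := trdeg_lt_of_dep hind0
  have htr2 : Algebra.trdeg K (FractionRing (WW K m n)) ≤ (Nat.card (Fin m ⊕ Fin n) : Cardinal) := by
    have hb : IsTranscendenceBasis K (fun i => cW K m n (X i)) := by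
      have halg := cl_eq_top_iff.mp hspan0
      exact hind0.isTranscendenceBasis_iff_isAlgebraic.mpr halg
    have h1 := hb.lift_cardinalMk_eq_trdeg
    have h2 : Cardinal.lift.{u} (Cardinal.mk (Fin m ⊕ Fin n)) =
        (Nat.card (Fin m ⊕ Fin n) : Cardinal.{u}) := by
      rw [Cardinal.mk_fintype, Nat.card_eq_fintype_card]
      simp
    have h3 : Algebra.trdeg K (FractionRing (WW K m n)) =
        Cardinal.lift.{u} (Cardinal.mk (Fin m ⊕ Fin n)) := by
      rw [h1, Cardinal.lift_uzero]
    rw [h3, h2]
  obtain ⟨R, hR, hker⟩ := ker_principal φ hspan (by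
    rw [hcard]
    push_cast
    exact add_le_add_left htr1 1) (by
    intro hbot
    have hind : AlgebraicIndependent K (fun i => φ (X i)) := by
      rw [algebraicIndependent_iff]
      intro P hP
      have h1 : φ P = 0 := by
        rw [← hP]
        have h2 := MvPolynomial.comp_aeval_apply (R := K) X φ P
        rw [MvPolynomial.aeval_X_left] at h2
        exact h2
      have h2 : P ∈ RingHom.ker φ := h1
      rw [hbot] at h2
      exact h2
    have h1 := (trdeg_lt_of_dep hind).trans htr2
    rw [hcard] at h1
    have h2 : Nat.card (Fin m ⊕ Fin n) + 1 ≤ Nat.card (Fin m ⊕ Fin n) := by exact_mod_cast h1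
    omega)
  refine ⟨R, hR, fun P => ?_⟩
  rw [← Ideal.mem_span_singleton, ← hker, RingHom.mem_ker]
  constructor
  · intro h
    change cW K m n (S.ρ n σ P) = 0
    rw [h, map_zero]
  · intro h
    apply cW_injective n
    rw [map_zero]
    exact h

/-- The ends of the generic walk of length `m + 1` are independent. -/
theorem ρ_injective [IsAlgClosed K] (hinj : S.Inj K m) (σ : Bool) :
    Function.Injective (S.ρ (m + 1) σ) := by
  have hspan0 : cl K (Set.range fun i => cW K m (m + 1) (X i)) = ⊤ :=
    cl_fractionRing_eq_top K (Fin m ⊕ Fin (m + 1))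
  have hind0 : AlgebraicIndependent K (fun i => cW K m (m + 1) (X i)) :=
    indep_fractionRing K (Fin m ⊕ Fin (m + 1))
  have hspan := S.ρ_span_succ hinj (cW K m (m + 1)) σ (by
    intro k h1 h2 h3
    have := ωW_inj (by omega) (by omega) (cW_injective (m + 1) h3)
    omega) hspan0
  have hind := algebraicIndependent_of_cl_eq_top _ hspan (by
    have h1 := trdeg_lt_of_dep hind0
    refine le_trans (le_of_eq ?_) h1
    congr 1
    simp only [Nat.card_eq_fintype_card, Fintype.card_option, Fintype.card_sum, Fintype.card_fin]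
    ring)
  have hind2 := hind.comp some (Option.some_injective _)
  rw [injective_iff_map_eq_zero]
  intro P hP
  apply hind2.eq_zero_of_aeval_eq_zero
  have h2 := MvPolynomial.comp_aeval_apply (R := K) X ((cW K m (m + 1)).comp (S.ρ (m + 1) σ)) P
  rw [MvPolynomial.aeval_X_left] at h2
  have h3 : ((cW K m (m + 1)).comp (S.ρ (m + 1) σ)) P = 0 := by
    rw [AlgHom.comp_apply, hP, map_zero]
  have h4 := h2.symm.trans h3
  exact h4

end Sys

end Pool.Agent.Helper49.Girth
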