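import Mathlib
import Pool.Agent.Helper49.FH.Rel

set_option autoImplicit false
set_option maxHeartbeats 400000

noncomputable section

namespace Pool.Agent.Helper49.Girth

open MvPolynomial

universe u

namespace Sys

variable {K : Type u} [Field K] {m : ℕ} [NeZero m] (S : Sys K m)

/-- No two non-backtracking walks of lengths `a` and `b` have the same ends, over all
extension fields. -/
def NoDF (a b : ℕ) : Prop :=
  ∀ (L : Type u) [Field L] [Algebra K L] (σ : Bool) (v : Fin m → L) (ω ω' : ℕ → L),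
    ω 0 = v 0 → ω' 0 = v 0 →
    (∀ k, 1 ≤ k → k < a → ω (k + 1) ≠ ω (k - 1)) →
    (∀ k, 1 ≤ k → k < b → ω' (k + 1) ≠ ω' (k - 1)) →
    S.walk σ v ω a ≠ S.walk σ v ω' b

/-- Every prime factor of the relation divides one of the `t_k`. -/
theorem factor_t [IsAlgClosed K] {n : ℕ} (hinj : S.Inj K m) (hD : S.NoDF (m + 1) n)
    (σ : Bool) (R : MvPolynomial (Fin m ⊕ Fin m) K) (hR : Prime R)
    (hRiff : ∀ P, S.ρ n σ P = 0 ↔ R ∣ P)
    (hspanL : cl K (Set.range fun i => cW K m n (S.ρ n σ (X i))) = ⊤)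
    (h : WW K m (m + 1)) (hh : Prime h) (hdvd : h ∣ S.ρ (m + 1) σ R) :
    ∃ k ∈ Finset.Ico 1 (m + 1), h ∣ tW K m (m + 1) k := by
  by_contra hcon
  push Not at hcon
  obtain ⟨Ω, _, _, r, hr, hspan, htr1, htr2⟩ := exists_residue h hh
  have hne : ∀ k, 1 ≤ k → k < m + 1 →
      r (ωW K m (m + 1) (k + 1)) ≠ r (ωW K m (m + 1) (k - 1)) := by
    intro k h1 h2 h3
    apply hcon k (Finset.mem_Ico.mpr ⟨h1, h2⟩)
    rw [← hr, tW, map_sub, h3, sub_self]
  have hspan2 := S.ρ_span_succ hinj r σ (fun k h1 h2 => hne k h1 (by omega)) hspan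
  have htr : (Nat.card (Fin m ⊕ Fin m) : Cardinal) ≤ Algebra.trdeg K Ω := by
    obtain ⟨d, hd⟩ := Cardinal.lt_aleph0.mp (htr1.trans Cardinal.natCast_lt_aleph0)
    rw [hd] at htr2 ⊢
    have h5 : Nat.card (Fin m ⊕ Fin (m + 1)) ≤ d + 1 := by exact_mod_cast htr2
    simp only [Nat.card_eq_fintype_card, Fintype.card_sum, Fintype.card_fin] at h5 ⊢
    exact_mod_cast (by omega : m + m ≤ d)
  have hker := rel_ker (r.comp (S.ρ (m + 1) σ)) (r (ωW K m (m + 1) m)) hspan2 htr R hR
    ((hr _).mpr hdvd)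
  obtain ⟨g, hg⟩ := lift_alg ((cW K m n).comp (S.ρ n σ)) (r.comp (S.ρ (m + 1) σ)) hspanL (by
    intro P
    rw [hker P, ← hRiff P]
    constructor
    · intro h1
      exact cW_injective n (by rw [map_zero]; exact h1)
    · intro h1
      change cW K m n (S.ρ n σ P) = 0
      rw [h1, map_zero])
  let e : Ω →ₐ[K] AlgebraicClosure Ω := IsScalarTower.toAlgHom K Ω (AlgebraicClosure Ω)
  have hv : (fun i => g (cW K m n (vW K m n i))) = fun i => e (r (vW K m (m + 1) i)) := by
    funext i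
    have h1 := hg (X (Sum.inl i))
    rw [AlgHom.comp_apply, AlgHom.comp_apply, ρ_inl, ρ_inl] at h1
    exact h1
  have hw : (fun i => g (cW K m n (S.walk σ (vW K m n) (ωW K m n) n i))) =
      fun i => e (r (S.walk σ (vW K m (m + 1)) (ωW K m (m + 1)) (m + 1) i)) := by
    funext i
    have h1 := hg (X (Sum.inr i))
    rw [AlgHom.comp_apply, AlgHom.comp_apply, ρ_inr, ρ_inr] at h1
    exact h1
  refine hD (AlgebraicClosure Ω) σ (fun i => e (r (vW K m (m + 1) i)))
    (fun k => e (r (ωW K m (m + 1) k))) (fun k => g (cW K m n (ωW K m n k))) ?_ ?_ ?_ ?_ ?_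
  · simp only [ωW_zero]
  · rw [ωW_zero]
    exact congrFun hv 0
  · intro k h1 h2 h3
    exact hne k h1 h2 (e.injective h3)
  · intro k h1 h2 h3
    have := ωW_inj (by omega) (by omega) (cW_injective n (g.injective h3))
    omega
  · have h1 := S.map_walk (e.comp r) σ (vW K m (m + 1)) (ωW K m (m + 1)) (m + 1)
    have h2 := S.map_walk (g.comp (cW K m n)) σ (vW K m n) (ωW K m n) n
    have h3 : (fun i => (g.comp (cW K m n)) (vW K m n i)) = fun i => e (r (vW K m (m + 1) i)) := hv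
    rw [h3] at h2
    have h4 := h2.symm.trans (hw.trans h1)
    exact h4.symm

end Sys

end Pool.Agent.Helper49.Girth
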