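import Mathlib
import Pool.Agent.Helper49.FH.Rel

set_option autoImplicit false
set_option maxHeartbeats 400000

noncomputable section

namespace Pool.Agent.Helper49.Girth

open MvPolynomial

universe u

namespace Sys

variable {K : Type u} [Field K] {m : ℕ} [NeZero m] (S : Sys K m)

/-- the last vertex of the universal walk with a jump at `j` (the variables `ω_j` and
`ω_{j+1}` play the roles of `π` and `τ`) -/
def endJS (M d l : ℕ) (σ : Bool) (j : ℕ) : Fin m → WW K m M :=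
  S.walk (ty σ (j + 1)) (S.jumpS d l (ty σ (j - 1)) (S.walk σ (vW K m M) (ωW K m M) (j - 1))
    (ωW K m M j) (ωW K m M (j + 1))) (fun k => ωW K m M (j + 1 + k)) (M - j - 1)

/-- the ends of the universal walk with a jump -/
def αJS (M d l : ℕ) (σ : Bool) (j : ℕ) : MvPolynomial (Fin m ⊕ Fin m) K →ₐ[K] WW K m M :=
  aeval (Sum.elim (vW K m M) (S.endJS M d l σ j))

theorem αJS_inl (M d l : ℕ) (σ : Bool) (j : ℕ) (i : Fin m) :
    S.αJS M d l σ j (X (Sum.inl i)) = vW K m M i := by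
  simp [αJS]

theorem αJS_inr (M d l : ℕ) (σ : Bool) (j : ℕ) (i : Fin m) :
    S.αJS M d l σ j (X (Sum.inr i)) = S.endJS M d l σ j i := by
  simp [αJS]

theorem hom_endJS (M d l : ℕ) {Ω : Type*} [CommRing Ω] [Algebra K Ω] (r : WW K m M →ₐ[K] Ω)
    (σ : Bool) (j : ℕ) (i : Fin m) : r (S.endJS M d l σ j i) =
      S.walk (ty σ (j + 1)) (S.jumpS d l (ty σ (j - 1))
        (S.walk σ (fun i => r (vW K m M i)) (fun k => r (ωW K m M k)) (j - 1))
        (r (ωW K m M j)) (r (ωW K m M (j + 1)))) (fun k => r (ωW K m M (j + 1 + k)))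
        (M - j - 1) i := by
  rw [endJS, S.map_walk_apply r, S.map_jumpS r, S.map_walk r]

omit [NeZero m] in
/-- The number of parameters. -/
theorem card_paramsM (M j : ℕ) (hj1 : 1 ≤ j) (hj : j < M) :
    Nat.card (Fin m ⊕ {k : ℕ // k ≤ M ∧ k ≠ j - 1 ∧ k ≠ j}) + 1 = Nat.card (Fin m ⊕ Fin M) := by
  classical
  have hfin : {k : ℕ | k ≤ M ∧ k ≠ j - 1 ∧ k ≠ j} =
      (((Finset.range (M + 1)).erase (j - 1)).erase j : Finset ℕ) := by
    ext k
    simp only [Set.mem_ofPred_eq, Finset.coe_erase, Finset.coe_range, Set.mem_sdiff, Set.mem_Iio,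
      Set.mem_singleton_iff]
    omega
  have h1 : Nat.card {k : ℕ // k ≤ M ∧ k ≠ j - 1 ∧ k ≠ j} = M - 1 := by
    have h2 : Nat.card {k : ℕ // k ≤ M ∧ k ≠ j - 1 ∧ k ≠ j} =
        Set.ncard {k : ℕ | k ≤ M ∧ k ≠ j - 1 ∧ k ≠ j} := rfl
    rw [h2, hfin, Set.ncard_coe_finset, Finset.card_erase_of_mem, Finset.card_erase_of_mem,
      Finset.card_range]
    · omega
    · simp; omega
    · simp; omega
  have hfin' : Finite {k : ℕ // k ≤ M ∧ k ≠ j - 1 ∧ k ≠ j} := by
    apply Set.Finite.to_subtype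
    exact (Set.finite_Iic M).subset (fun k hk => hk.1)
  rw [Nat.card_sum, h1, Nat.card_sum, Nat.card_eq_fintype_card, Fintype.card_fin,
    Nat.card_eq_fintype_card, Fintype.card_fin]
  omega

/-- The ends of the walk with a jump are independent modulo `π = ω_j`. -/
theorem αJS_not_dvd [IsAlgClosed K] (hinj : S.Inj K m) (σ : Bool) (j : ℕ) (hj1 : 1 ≤ j)
    (hj : j < m + 1) {d l : ℕ} (hsl : S.IsSlope (ty σ (j - 1)) d l)
    (P : MvPolynomial (Fin m ⊕ Fin m) K) (hP : P ≠ 0) :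
    ¬ ωW K m (m + 1) j ∣ S.αJS (m + 1) d l σ j P := by
  have hπ : Prime (ωW K m (m + 1) j) := primeW j (by omega) (by omega)
  obtain ⟨Ω, _, _, r, hr, hspan, htr1, htr2⟩ := exists_residue (ωW K m (m + 1) j) hπ
  have hπ0 : r (ωW K m (m + 1) j) = 0 := (hr _).mpr dvd_rfl
  set v0 : Fin m → Ω := fun i => r (vW K m (m + 1) i) with hv0
  set ω : ℕ → Ω := fun k => r (ωW K m (m + 1) k) with hω
  have h0 : ω 0 = v0 0 := by simp only [hω, hv0, ωW_zero]
  have hcard2 : (Nat.card (Fin m ⊕ Fin (m + 1))) = 2 * m + 1 := by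
    rw [Nat.card_eq_fintype_card, Fintype.card_sum, Fintype.card_fin, Fintype.card_fin]; ring
  have htrdeg : Algebra.trdeg K Ω < (2 * m + 1 : ℕ) := by
    rw [← hcard2]; exact htr1
  -- independence of the parameters
  have hfin' : Finite {k : ℕ // k ≤ m + 1 ∧ k ≠ j - 1 ∧ k ≠ j} := by
    apply Set.Finite.to_subtype
    exact (Set.finite_Iic (m + 1)).subset (fun k hk => hk.1)
  obtain ⟨D, hD⟩ := Cardinal.lt_aleph0.mp (htr1.trans Cardinal.natCast_lt_aleph0)
  have hD2 : 2 * m + 1 ≤ D + 1 := by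
    rw [hD, hcard2] at htr2
    exact_mod_cast htr2
  have hind : AlgebraicIndependent K (Sum.elim (S.walk σ v0 ω (j - 1))
      (fun k : {k : ℕ // k ≤ m + 1 ∧ k ≠ j - 1 ∧ k ≠ j} => ω k)) := by
    -- spanning
    set s : Set Ω := Set.range (Sum.elim (S.walk σ v0 ω (j - 1))
      (fun k : {k : ℕ // k ≤ m + 1 ∧ k ≠ j - 1 ∧ k ≠ j} => ω k)) with hs
    have h1 : ∀ i, S.walk σ v0 ω (j - 1) i ∈ cl K s := fun i =>
      mem_cl_of_mem ⟨Sum.inl i, rfl⟩
    have h2 : ∀ k, k ≤ m + 1 → ω k ∈ cl K s := by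
      intro k hk
      by_cases hk1 : k = j - 1
      · rw [hk1, ← S.walk_fst σ v0 ω h0]
        exact h1 0
      · by_cases hk2 : k = j
        · rw [hk2, hω]
          simp only [hπ0]
          exact zero_mem _
        · exact mem_cl_of_mem ⟨Sum.inr ⟨k, hk, hk1, hk2⟩, rfl⟩
    have h3 : ∀ i, v0 i ∈ cl K s := by
      intro i
      have := S.walk_mem_rev (cl K s) σ v0 ω h0 (j - 1) 0 (by
        intro i; rw [Nat.zero_add]; exact h1 i) (fun k _ hk => h2 k (by omega)) i
      exact this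
    have htop : cl K s = ⊤ := clW_eq_top r hspan s h3 (fun k _ hk => h2 k hk)
    -- counting
    have hc := card_paramsM (m := m) (m + 1) j hj1 hj
    have hle : (Nat.card (Fin m ⊕ {k : ℕ // k ≤ m + 1 ∧ k ≠ j - 1 ∧ k ≠ j}) : Cardinal) ≤
        Algebra.trdeg K Ω := by
      rw [hD]
      exact_mod_cast (by omega : Nat.card (Fin m ⊕ {k : ℕ // k ≤ m + 1 ∧ k ≠ j - 1 ∧ k ≠ j}) ≤ D)
    exact algebraicIndependent_of_cl_eq_top _ htop hle
  have hgood := S.chainS hinj htrdeg σ (m + 1) j hj1 hj hsl v0 ω h0 hind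
  -- all variables are algebraic over the ends
  set u := S.walk (ty σ (j + 1)) (S.jumpS d l (ty σ (j - 1)) (S.walk σ v0 ω (j - 1)) 0 (ω (j + 1)))
    (fun k => ω (j + 1 + k)) (m + 1 - j - 1) with hu
  have hrange : Set.range v0 ∪ Set.range u = Set.range (Sum.elim v0 u) :=
    (Set.Sum.elim_range v0 u).symm
  have htop : cl K (Set.range (Sum.elim v0 u)) = ⊤ := by
    rw [← hrange]
    apply clW_eq_top r hspan
    · intro i
      exact mem_cl_of_mem (Or.inl ⟨i, rfl⟩)
    · intro k hk1 hk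
      by_cases hk1 : k = j - 1
      · have : r (ωW K m (m + 1) k) = S.walk σ v0 ω (j - 1) 0 := by
          rw [S.walk_fst σ v0 ω h0, hk1]
        rw [this]
        exact hgood.hS _ (Or.inl ⟨0, rfl⟩)
      · by_cases hk2 : k = j
        · rw [hk2, hπ0]
          exact zero_mem _
        · exact hgood.hS _ (Or.inr ⟨k, ⟨hk, hk1, hk2⟩, rfl⟩)
  have hfinal : AlgebraicIndependent K (Sum.elim v0 u) := by
    apply algebraicIndependent_of_cl_eq_top _ htop
    rw [hD]
    simp only [Nat.card_eq_fintype_card, Fintype.card_sum, Fintype.card_fin]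
    exact_mod_cast (by omega : m + m ≤ D)
  intro hdvd
  apply hP
  apply hfinal.eq_zero_of_aeval_eq_zero
  rw [← hr] at hdvd
  rw [← hdvd, αJS, MvPolynomial.comp_aeval_apply]
  congr 2
  funext i
  rcases i with i | i
  · rfl
  · simp only [Sum.elim_inr]
    rw [S.hom_endJS _ _ _ r, hπ0]

end Sys

end Pool.Agent.Helper49.Girth
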