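import Mathlib
import Pool.Agent.Helper49.FH.JRing
import Pool.Agent.Helper49.Girth.Order

set_option autoImplicit false
set_option maxHeartbeats 400000

noncomputable section

namespace Pool.Agent.Helper49.Girth

open MvPolynomial

universe u

namespace Sys

variable {K : Type u} [Field K] {m : ℕ} [NeZero m] (S : Sys K m)

theorem cW_ωW_ne_zero (M k : ℕ) : cW K m M (ωW K m M k) ≠ 0 := by
  intro h
  have h1 : ωW K m M k = 0 := cW_injective M (by rw [h, map_zero])
  rw [ωW] at h1
  split_ifs at h1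
  · exact (prime_X' _).ne_zero h1
  · exact (prime_X' _).ne_zero h1

variable (K m) in
/-- the first coordinates of the walk with a jump at `j` -/
def ωFS (M d l : ℕ) (j : ℕ) (k : ℕ) : FractionRing (WW K m M) :=
  if k = j then (cW K m M (ωW K m M j) ^ l)⁻¹
  else if k = j + 1 then cW K m M (ωW K m M (j - 1)) +
    cW K m M (ωW K m M (j + 1)) * cW K m M (ωW K m M j) ^ d
  else cW K m M (ωW K m M k)

variable (K m) in
/-- the change of coordinates -/
def θS (M d l : ℕ) (j : ℕ) : WW K m M →ₐ[K] FractionRing (WW K m M) :=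
  aeval (Sum.elim (fun i => cW K m M (vW K m M i)) (fun k : Fin M => ωFS K m M d l j (k + 1)))

theorem θS_vW (M d l : ℕ) (j : ℕ) (i : Fin m) :
    θS K m M d l j (vW K m M i) = cW K m M (vW K m M i) := by
  simp [θS, vW]

theorem θS_ωW (M d l : ℕ) (j : ℕ) (hj1 : 1 ≤ j) (k : ℕ) (hk : k ≤ M) :
    θS K m M d l j (ωW K m M k) = ωFS K m M d l j k := by
  rcases Nat.eq_zero_or_pos k with h | h
  · subst h
    rw [ωW_zero, θS_vW, ωFS, if_neg (by omega), if_neg (by omega), ωW_zero]
  · rw [ωW_pos k h hk, θS, aeval_X]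
    simp only [Sum.elim_inr]
    congr 1
    omega

/-- The walk with a jump passes through `endJS`. -/
theorem walk_θS (M : ℕ) {d l : ℕ} (σ : Bool) (j : ℕ) (hj1 : 1 ≤ j) (hj : j < M)
    (hsl : S.IsSlope (ty σ (j - 1)) d l) (i : Fin m) :
    S.walk σ (fun i => cW K m M (vW K m M i)) (fun k => θS K m M d l j (ωW K m M k)) M i =
      cW K m M (S.endJS M d l σ j i) := by
  set v : Fin m → FractionRing (WW K m M) := fun i => cW K m M (vW K m M i) with hv
  set ω : ℕ → FractionRing (WW K m M) := fun k => θS K m M d l j (ωW K m M k) with hω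
  have h0 : ω 0 = v 0 := by
    simp only [hω, hv, ωW_zero, θS_vW]
  have hm : M = (j + 1) + (M - j - 1) := by omega
  have e1 : S.walk σ v ω M = S.walk (ty σ (j + 1)) (S.walk σ v ω (j + 1))
      (fun k => ω (j + 1 + k)) (M - j - 1) := by
    rw [← S.walk_add σ v ω (j + 1) (M - j - 1), ← hm]
  rw [e1, S.hom_endJS M d l (cW K m M)]
  -- before the jump
  have e2 : S.walk σ v ω (j - 1) = S.walk σ v (fun k => cW K m M (ωW K m M k)) (j - 1) := by
    apply S.walk_congr
    intro k h1 h2
    simp only [hω]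
    rw [θS_ωW M d l j hj1 k (by omega), ωFS, if_neg (by omega), if_neg (by omega)]
  set V := S.walk σ v (fun k => cW K m M (ωW K m M k)) (j - 1) with hV
  have hV0 : V 0 = cW K m M (ωW K m M (j - 1)) := by
    rw [hV, S.walk_fst σ v (fun k => cW K m M (ωW K m M k)) (by simp only [hv, ωW_zero])]
  -- the jump
  have e3 : S.walk σ v ω (j + 1) = S.jumpS d l (ty σ (j - 1)) V (cW K m M (ωW K m M j))
      (cW K m M (ωW K m M (j + 1))) := by
    rw [S.jumpS_eq hsl _ _ _ (cW_ωW_ne_zero M j)]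
    have hj' : j = (j - 1) + 1 := by omega
    have e4 : S.walk σ v ω j = S.nb (ty σ (j - 1)) (S.walk σ v ω (j - 1)) (ω j) := by
      conv_lhs => rw [hj']
      rw [walk_succ, ← hj']
    have e5 : ty σ j = !(ty σ (j - 1)) := by
      conv_lhs => rw [hj']
      rw [ty_succ]
    rw [walk_succ, e4, e5, e2, hV0]
    have e6 : ω j = (cW K m M (ωW K m M j) ^ l)⁻¹ := by
      simp only [hω]
      rw [θS_ωW M d l j hj1 j (by omega), ωFS, if_pos rfl]
    have e7 : ω (j + 1) = cW K m M (ωW K m M (j - 1)) +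
        cW K m M (ωW K m M (j + 1)) * cW K m M (ωW K m M j) ^ d := by
      simp only [hω]
      rw [θS_ωW M d l j hj1 (j + 1) (by omega), ωFS, if_neg (by omega), if_pos rfl]
    rw [e6, e7]
  rw [e3]
  -- after the jump
  apply congrFun
  apply S.walk_congr
  intro k h1 h2
  simp only [hω]
  rw [θS_ωW M d l j hj1 _ (by omega), ωFS, if_neg (by omega), if_neg (by omega)]

/-- `θ ∘ ρ = αJ`. -/
theorem θS_ρ (M : ℕ) {d l : ℕ} (σ : Bool) (j : ℕ) (hj1 : 1 ≤ j) (hj : j < M)
    (hsl : S.IsSlope (ty σ (j - 1)) d l) (P : MvPolynomial (Fin m ⊕ Fin m) K) :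
    θS K m M d l j (S.ρ M σ P) = cW K m M (S.αJS M d l σ j P) := by
  rw [S.hom_ρ M (θS K m M d l j), αJS, MvPolynomial.comp_aeval_apply]
  congr 2
  funext i
  rcases i with i | i
  · simp only [Sum.elim_inl, θS_vW]
  · simp only [Sum.elim_inr, θS_vW]
    exact S.walk_θS M σ j hj1 hj hsl i

/-- The order of `t_k` along `π = ω_j`. -/
theorem t_orderS (M d l : ℕ) (j : ℕ) (hj1 : 1 ≤ j) (hj : j < M) (hd : 1 ≤ d) (hl : 1 ≤ l)
    (k : ℕ) (hk1 : 1 ≤ k) (hk : k < M) :
    ∃ T : WW K m M, ¬ ωW K m M j ∣ T ∧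
      θS K m M d l j (tW K m M k) *
        cW K m M (ωW K m M j) ^ (if k + 1 = j ∨ k = j + 1 then l else 0) =
      cW K m M T * cW K m M (ωW K m M j) ^ (if k = j then d else 0) := by
  have hπ0 := cW_ωW_ne_zero (K := K) (m := m) M j
  have hθ : θS K m M d l j (tW K m M k) = ωFS K m M d l j (k + 1) - ωFS K m M d l j (k - 1) := by
    rw [tW, map_sub, θS_ωW M d l j hj1 _ (by omega), θS_ωW M d l j hj1 _ (by omega)]
  by_cases c1 : k = j
  · refine ⟨ωW K m M (j + 1), ?_, ?_⟩
    · apply not_dvd_of_zW j (by omega)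
      rw [zW_ωW j (by omega) _ (by omega), if_neg (by omega)]
      exact (primeW _ (by omega) (by omega)).ne_zero
    · rw [hθ, if_neg (by omega), if_pos c1, c1]
      rw [ωFS, if_neg (by omega), if_pos rfl, ωFS, if_neg (by omega), if_neg (by omega)]
      ring
  by_cases c2 : k + 1 = j
  · refine ⟨1 - ωW K m M (k - 1) * ωW K m M j ^ l, ?_, ?_⟩
    · apply not_dvd_of_zW j (by omega)
      rw [map_sub, map_one, map_mul, map_pow, zW_ωW j (by omega) j (by omega), if_pos rfl,
        zero_pow (by omega), mul_zero, sub_zero]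
      exact one_ne_zero
    · rw [hθ, if_pos (Or.inl c2), if_neg c1]
      rw [ωFS, if_pos c2, ωFS, if_neg (by omega), if_neg (by omega), map_sub, map_one, map_mul,
        map_pow]
      rw [pow_zero, mul_one, sub_mul, inv_mul_cancel₀ (pow_ne_zero l hπ0)]
  by_cases c3 : k = j + 1
  · refine ⟨ωW K m M (k + 1) * ωW K m M j ^ l - 1, ?_, ?_⟩
    · apply not_dvd_of_zW j (by omega)
      rw [map_sub, map_one, map_mul, map_pow, zW_ωW j (by omega) j (by omega), if_pos rfl,
        zero_pow (by omega), mul_zero, zero_sub]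
      exact neg_ne_zero.mpr one_ne_zero
    · rw [hθ, if_pos (Or.inr c3), if_neg c1]
      rw [ωFS, if_neg (by omega), if_neg (by omega), ωFS, if_pos (by omega), map_sub, map_one,
        map_mul, map_pow]
      rw [pow_zero, mul_one, sub_mul, inv_mul_cancel₀ (pow_ne_zero l hπ0)]
  by_cases c4 : k = j + 2
  · refine ⟨ωW K m M (k + 1) - (ωW K m M (j - 1) + ωW K m M (j + 1) * ωW K m M j ^ d), ?_, ?_⟩
    · apply not_dvd_of_zW j (by omega)
      rw [map_sub, map_add, map_mul, map_pow, zW_ωW j (by omega) j (by omega), if_pos rfl,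
        zero_pow (by omega), mul_zero, add_zero, zW_ωW j (by omega) _ (by omega),
        if_neg (by omega), zW_ωW j (by omega) _ (by omega), if_neg (by omega)]
      intro h
      have := ωW_inj (by omega) (by omega) (sub_eq_zero.mp h)
      omega
    · rw [hθ, if_neg (by omega), if_neg c1]
      rw [ωFS, if_neg (by omega), if_neg (by omega), ωFS, if_neg (by omega), if_pos (by omega)]
      rw [map_sub, map_add, map_mul, map_pow]
  · refine ⟨ωW K m M (k + 1) - ωW K m M (k - 1), ?_, ?_⟩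
    · apply not_dvd_of_zW j (by omega)
      rw [map_sub, zW_ωW j (by omega) _ (by omega), if_neg (by omega),
        zW_ωW j (by omega) _ (by omega), if_neg (by omega)]
      intro h
      have := ωW_inj (by omega) (by omega) (sub_eq_zero.mp h)
      omega
    · rw [hθ, if_neg (by omega), if_neg c1]
      rw [ωFS, if_neg (by omega), if_neg (by omega), ωFS, if_neg (by omega), if_neg (by omega),
        map_sub]

/-- The order equation. -/
theorem order_mainS (M : ℕ) {d l : ℕ} (σ : Bool) (j : ℕ) (hj1 : 1 ≤ j) (hj : j < M)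
    (hsl : S.IsSlope (ty σ (j - 1)) d l) (R : MvPolynomial (Fin m ⊕ Fin m) K)
    (u : WW K m M) (hu : IsUnit u) (x : ℕ → ℕ)
    (hx : ∀ k, k ∉ Finset.Ico 1 M → x k = 0)
    (hF : S.ρ M σ R = u * ∏ k ∈ Finset.Ico 1 M, tW K m M k ^ x k)
    (hU : ¬ ωW K m M j ∣ S.αJS M d l σ j R) :
    d * x j = l * (x (j - 1) + x (j + 1)) := by
  classical
  have hd := hsl.dpos
  have hl := hsl.lpos
  set π := ωW K m M j with hπ
  have hπprime : Prime π := primeW j (by omega) (by omega)
  have hT : ∀ k : ℕ, ∃ T : WW K m M, k ∈ Finset.Ico 1 M → ¬ π ∣ T ∧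
      θS K m M d l j (tW K m M k) * cW K m M π ^ (if k + 1 = j ∨ k = j + 1 then l else 0) =
      cW K m M T * cW K m M π ^ (if k = j then d else 0) := by
    intro k
    by_cases hk : k ∈ Finset.Ico 1 M
    · rw [Finset.mem_Ico] at hk
      obtain ⟨T, hT⟩ := t_orderS (K := K) (m := m) M d l j hj1 hj hd hl k hk.1 hk.2
      exact ⟨T, fun _ => hT⟩
    · exact ⟨0, fun h => absurd h hk⟩
  choose T hT using hT
  -- the unit is a constant
  obtain ⟨c0, hc0, rfl⟩ : ∃ c0 : K, c0 ≠ 0 ∧ u = C c0 := by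
    have h1 := (MvPolynomial.isUnit_iff_totalDegree_of_isReduced.mp hu)
    refine ⟨coeff 0 u, h1.1.ne_zero, ?_⟩
    exact totalDegree_eq_zero_iff_eq_C.mp h1.2
  -- apply `θ`
  have h1 := S.θS_ρ M σ j hj1 hj hsl R
  rw [hF, map_mul, map_prod] at h1
  have h2 : θS K m M d l j (C c0) = cW K m M (C c0) := by
    have e1 : (C c0 : WW K m M) = algebraMap K (WW K m M) c0 := rfl
    rw [e1, AlgHom.commutes, AlgHom.commutes]
  rw [h2] at h1
  set s1 := ∑ k ∈ Finset.Ico 1 M, (if k + 1 = j ∨ k = j + 1 then l else 0) * x k with hs1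
  set s2 := ∑ k ∈ Finset.Ico 1 M, (if k = j then d else 0) * x k with hs2
  have h3 : (∏ k ∈ Finset.Ico 1 M, θS K m M d l j (tW K m M k ^ x k)) * cW K m M π ^ s1 =
      cW K m M (∏ k ∈ Finset.Ico 1 M, T k ^ x k) * cW K m M π ^ s2 := by
    rw [hs1, hs2, ← Finset.prod_pow_eq_pow_sum, ← Finset.prod_pow_eq_pow_sum, map_prod,
      ← Finset.prod_mul_distrib, ← Finset.prod_mul_distrib]
    apply Finset.prod_congr rfl
    intro k hk
    rw [map_pow, map_pow, pow_mul, pow_mul, ← mul_pow, (hT k hk).2, mul_pow]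
  have h4 : S.αJS M d l σ j R * π ^ s1 = C c0 * (∏ k ∈ Finset.Ico 1 M, T k ^ x k) * π ^ s2 := by
    apply cW_injective (K := K) (m := m) M
    rw [map_mul, ← h1, map_pow, map_mul, map_mul, map_pow, mul_assoc, h3]
    ring
  have hW : ¬ π ∣ C c0 * ∏ k ∈ Finset.Ico 1 M, T k ^ x k := by
    intro h
    rcases hπprime.dvd_or_dvd h with h5 | h5
    · exact hπprime.not_isUnit (isUnit_of_dvd_unit h5 hu)
    · obtain ⟨k, hk, h6⟩ := (hπprime.dvd_finsetProd_iff _).mp h5
      exact (hT k hk).1 (hπprime.dvd_of_dvd_pow h6)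
  have h5 : s1 = s2 := by
    apply order_eq hπprime hU hW
    rw [mul_comm (π ^ s2), ← h4]
    ring
  have h6 : s2 = d * x j := by
    rw [hs2, Finset.sum_eq_single j]
    · rw [if_pos rfl]
    · intro k _ hk
      rw [if_neg hk, zero_mul]
    · intro h
      exact absurd (Finset.mem_Ico.mpr ⟨hj1, hj⟩) h
  have h7 : s1 = l * (x (j - 1) + x (j + 1)) := by
    have e1 : ∀ k ∈ Finset.Ico 1 M, (if k + 1 = j ∨ k = j + 1 then l else 0) * x k =
        (if k = j - 1 then l * x k else 0) + (if k = j + 1 then l * x k else 0) := by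
      intro k hk
      rw [Finset.mem_Ico] at hk
      by_cases c1 : k + 1 = j
      · rw [if_pos (Or.inl c1), if_pos (by omega), if_neg (by omega)]; ring
      · by_cases c2 : k = j + 1
        · rw [if_pos (Or.inr c2), if_neg (by omega), if_pos c2]; ring
        · rw [if_neg (by omega), if_neg (by omega), if_neg c2]; ring
    rw [hs1, Finset.sum_congr rfl e1, Finset.sum_add_distrib, Finset.sum_ite_eq',
      Finset.sum_ite_eq', mul_add]
    congr 1
    · split_ifs with h
      · rfl
      · rw [hx _ h, mul_zero]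
    · split_ifs with h
      · rfl
      · rw [hx _ h, mul_zero]
  omega

end Sys

end Pool.Agent.Helper49.Girth
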