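import Mathlib
import Pool.Agent.Helper49.FH.Comb
import Pool.Agent.Helper49.FH.Fac
import Pool.Agent.Helper49.FH.Order

set_option autoImplicit false
set_option maxHeartbeats 400000

noncomputable section

namespace Pool.Agent.Helper49.Girth

open MvPolynomial

universe u

namespace Sys

variable {K : Type u} [Field K] {m : ℕ} [NeZero m] (S : Sys K m)

/-- The exponents. -/
theorem exists_exponentsS [IsAlgClosed K] {n : ℕ} (hn : n + 1 = m) (hinj : S.Inj K m)
    (hinj' : S.Inj K n) (hD : S.NoDF (m + 1) n) (σ : Bool) (d l : Bool → ℕ)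
    (hsl : ∀ σ, S.IsSlope σ (d σ) (l σ)) :
    ∃ x : ℕ → ℕ, x 0 = 0 ∧ x (m + 1) = 0 ∧ (∃ k, k ≤ m ∧ x k ≠ 0) ∧ ∀ j, 1 ≤ j → j ≤ m →
      d (ty σ (j - 1)) * x j = l (ty σ (j - 1)) * (x (j - 1) + x (j + 1)) := by
  classical
  obtain ⟨hspanL, R, hR, hRiff⟩ := S.exists_rel hn hinj' σ
  have hρinj := S.ρ_injective hinj σ
  have hρR : S.ρ (m + 1) σ R ≠ 0 := by
    intro h
    exact hR.ne_zero (hρinj (by rw [h, map_zero]))
  obtain ⟨x, u, hu, hx, hxR⟩ := factor_lemma (Finset.Ico 1 (m + 1)) (tW K m (m + 1))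
    (fun k hk => by
      rw [Finset.mem_Ico] at hk
      exact tW_prime k hk.1 hk.2) (S.ρ (m + 1) σ R) hρR
    (fun p hp hpd => S.factor_t hinj hD σ R hR hRiff hspanL p hp hpd)
  refine ⟨x, hx 0 (by simp), hx (m + 1) (by simp), ?_, ?_⟩
  · by_contra hcon
    push Not at hcon
    -- then the relation is a constant
    have h1 : S.ρ (m + 1) σ R = u := by
      rw [hxR, Finset.prod_eq_one, mul_one]
      intro k hk
      rw [Finset.mem_Ico] at hk
      rw [hcon k (by omega), pow_zero]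
    obtain ⟨c0, rfl⟩ : ∃ c0 : K, u = C c0 := by
      have h1 := (MvPolynomial.isUnit_iff_totalDegree_of_isReduced.mp hu)
      exact ⟨coeff 0 u, totalDegree_eq_zero_iff_eq_C.mp h1.2⟩
    have hc0 : c0 ≠ 0 := by
      rintro rfl
      apply hρR
      rw [h1, map_zero]
    have h2 : R = C c0 := by
      apply hρinj
      rw [h1]
      have e1 : (C c0 : MvPolynomial (Fin m ⊕ Fin m) K) = algebraMap K _ c0 := rfl
      have e2 : (C c0 : WW K m (m + 1)) = algebraMap K _ c0 := rfl
      rw [e1, e2, AlgHom.commutes]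
    apply hR.not_isUnit
    rw [h2]
    exact (Ne.isUnit hc0).map C
  · intro j h1 h2
    exact S.order_mainS (m + 1) σ j h1 (by omega) (hsl _) R u hu x hx hxR
      (S.αJS_not_dvd hinj σ j h1 (by omega) (hsl _) R hR.ne_zero)

/-- The Feit-Higman theorem for polynomial neighbourhood systems, in every characteristic. -/
theorem main_sysS [IsAlgClosed K] (hm : 2 ≤ m) {n : ℕ} (hn : n + 1 = m) (hinj : S.Inj K m)
    (hinj' : S.Inj K n) (hinj2 : S.Inj K 2) (hD : S.NoDF (m + 1) n) :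
    m = 2 ∨ m = 3 ∨ m = 5 := by
  choose d l hsl using fun σ => S.exists_slope hinj2 σ
  obtain ⟨x, h0, hend, hne, hx⟩ := S.exists_exponentsS hn hinj hinj' hD true d l hsl
  exact Pool.Agent.Helper49.FH.comb2 m hm d l (fun σ => (hsl σ).dpos) (fun σ => (hsl σ).lpos)
    true x h0 hend hne hx

end Sys

end Pool.Agent.Helper49.Girth
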