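import Mathlib
import Pool.Agent.Helper49.Girth.Graph
import Pool.Agent.Helper49.FH.Fac

set_option autoImplicit false
set_option maxHeartbeats 400000

noncomputable section

namespace Pool.Agent.Helper49.Girth

open MvPolynomial

open Pool.Agent.Helper61.Sym (NB exists_cycle)

namespace Sys

variable {K : Type*} [Field K] {m : ℕ} [NeZero m] (S : Sys K m)

/-- No two non-backtracking walks of lengths `a` and `b` have the same ends. -/
def NoD (E : Type*) [CommRing E] [Algebra K E] (a b : ℕ) : Prop :=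
  ∀ (σ : Bool) (v : Fin m → E) (ω ω' : ℕ → E), ω 0 = v 0 → ω' 0 = v 0 →
    (∀ k, 1 ≤ k → k < a → ω (k + 1) ≠ ω (k - 1)) →
    (∀ k, 1 ≤ k → k < b → ω' (k + 1) ≠ ω' (k - 1)) →
    S.walk σ v ω a ≠ S.walk σ v ω' b

/-- Nullstellensatz: the same for points over all fields. -/
theorem noD_field [IsAlgClosed K] {n n' : ℕ} (h : S.NoD K n n') (L : Type*) [Field L]
    [Algebra K L] : S.NoD L n n' := by
  classical
  intro σ v ω ω' h0 h0' ht ht' hw
  -- universal data
  let R := MvPolynomial (Fin m ⊕ (Fin n ⊕ Fin n')) K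
  let vu : Fin m → R := fun i => X (Sum.inl i)
  let ωu : ℕ → R := fun k => match k with
    | 0 => X (Sum.inl 0)
    | (k + 1) => if hk : k < n then X (Sum.inr (Sum.inl ⟨k, hk⟩)) else 0
  let ωu' : ℕ → R := fun k => match k with
    | 0 => X (Sum.inl 0)
    | (k + 1) => if hk : k < n' then X (Sum.inr (Sum.inr ⟨k, hk⟩)) else 0
  let I : Ideal R := Ideal.span (Set.range fun i : Fin m =>
    S.walk σ vu ωu n i - S.walk σ vu ωu' n' i)
  let g : R := (∏ k ∈ Finset.Ico 1 n, (ωu (k + 1) - ωu (k - 1))) *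
    (∏ k ∈ Finset.Ico 1 n', (ωu' (k + 1) - ωu' (k - 1)))
  have hg : g ∈ vanishingIdeal K (zeroLocus K I) := by
    rw [mem_vanishingIdeal_iff]
    intro a ha
    by_contra hga
    have hga' : aeval a g ≠ 0 := hga
    simp only [g, map_mul, map_prod, map_sub] at hga'
    have h2 : ∀ k ∈ Finset.Ico 1 n, aeval a (ωu (k + 1)) ≠ aeval a (ωu (k - 1)) := by
      intro k hk hh
      apply hga'
      rw [Finset.prod_eq_zero hk (by rw [hh, sub_self]), zero_mul]
    have h3 : ∀ k ∈ Finset.Ico 1 n', aeval a (ωu' (k + 1)) ≠ aeval a (ωu' (k - 1)) := by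
      intro k hk hh
      apply hga'
      rw [Finset.prod_eq_zero (s := Finset.Ico 1 n')
        (f := fun k => aeval a (ωu' (k + 1)) - aeval a (ωu' (k - 1))) hk (by rw [hh, sub_self]),
        mul_zero]
    refine (h σ (fun i => aeval a (vu i)) (fun k => aeval a (ωu k)) (fun k => aeval a (ωu' k))
      rfl rfl ?_ ?_) ?_
    · intro k hk1 hk2
      exact h2 k (Finset.mem_Ico.mpr ⟨hk1, hk2⟩)
    · intro k hk1 hk2
      exact h3 k (Finset.mem_Ico.mpr ⟨hk1, hk2⟩)
    · rw [← S.map_walk, ← S.map_walk]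
      funext i
      have h4 : aeval a (S.walk σ vu ωu n i - S.walk σ vu ωu' n' i) = 0 := by
        have := (mem_zeroLocus_iff.mp ha) _ (Ideal.subset_span ⟨i, rfl⟩)
        exact this
      rw [map_sub, sub_eq_zero] at h4
      exact h4
  rw [vanishingIdeal_zeroLocus_eq_radical] at hg
  obtain ⟨N, hN⟩ := hg
  -- evaluate at the `L`-point
  let a : Fin m ⊕ (Fin n ⊕ Fin n') → L :=
    Sum.elim v (Sum.elim (fun k => ω (k + 1)) (fun k => ω' (k + 1)))
  have e1 : ∀ k ≤ n, aeval a (ωu k) = ω k := by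
    intro k hk
    cases k with
    | zero =>
      have : aeval a (ωu 0) = v 0 := by simp [ωu, a]
      rw [this, h0]
    | succ k =>
      have : k < n := by omega
      simp [ωu, this, a]
  have e2 : ∀ k ≤ n', aeval a (ωu' k) = ω' k := by
    intro k hk
    cases k with
    | zero =>
      have : aeval a (ωu' 0) = v 0 := by simp [ωu', a]
      rw [this, h0']
    | succ k =>
      have : k < n' := by omega
      simp [ωu', this, a]
  have e3 : (fun i => aeval a (vu i)) = v := by
    funext i; simp [vu, a]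
  have hI : ∀ f ∈ I, aeval a f = 0 := by
    intro f hf
    have : I ≤ RingHom.ker (aeval a : R →ₐ[K] L) := by
      rw [Ideal.span_le]
      rintro _ ⟨i, rfl⟩
      simp only [SetLike.mem_coe, RingHom.mem_ker, map_sub]
      rw [S.map_walk_apply, S.map_walk_apply, e3]
      rw [S.walk_congr σ v _ ω n (fun k _ hk => e1 k hk),
        S.walk_congr σ v _ ω' n' (fun k _ hk => e2 k hk), hw, sub_self]
    exact this hf
  have h5 := hI _ hN
  rw [map_pow] at h5
  have h6 : aeval a g = 0 := IsReduced.eq_zero _ ⟨N, h5⟩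
  simp only [g, map_mul, map_prod, map_sub] at h6
  rw [mul_eq_zero, Finset.prod_eq_zero_iff, Finset.prod_eq_zero_iff] at h6
  rcases h6 with ⟨k, hk, h7⟩ | ⟨k, hk, h7⟩
  · rw [Finset.mem_Ico] at hk
    rw [e1 (k + 1) (by omega), e1 (k - 1) (by omega), sub_eq_zero] at h7
    exact ht k hk.1 hk.2 h7
  · rw [Finset.mem_Ico] at hk
    rw [e2 (k + 1) (by omega), e2 (k - 1) (by omega), sub_eq_zero] at h7
    exact ht' k hk.1 hk.2 h7

end Sys

section walks

variable {V : Type*} {G : SimpleGraph V}

/-- Two non-backtracking walks of different lengths with different first steps and the same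
end give a short closed non-backtracking walk. -/
theorem closed_of_two' : ∀ (s s' : ℕ) {z u u' p p' x : V}, u ≠ u' → NB G s z u p x →
    NB G s' z u' p' x → ∃ l a b c, l ≤ s + s' + 1 ∧ NB G l a b c a := by
  intro s
  induction s with
  | zero =>
    intro s' z u u' p p' x huu h h'
    cases h with
    | base hzu =>
      cases h' with
      | base => exact absurd rfl huu
      | @step s' _ _ c d _ h' hd' hne' =>
        by_cases hp : p' = z
        · subst hp
          exact ⟨s', p', u', c, by omega, h'⟩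
        · have h1 : NB G (s' + 1) z u' p' u := NB.step h' hd' hne'
          have h2 : NB G (s' + 2) z u' u z := NB.step h1 hzu.symm (Ne.symm hp)
          exact ⟨s' + 2, z, u', u, by omega, h2⟩
  | succ s ih =>
    intro s' z u u' p p' x huu h h'
    cases h with
    | @step _ _ _ c d _ h hd hne =>
      cases h' with
      | base hzu' =>
        by_cases hp : p = z
        · subst hp
          exact ⟨s, p, u, c, by omega, h⟩
        · have h1 : NB G (s + 1) z u p u' := NB.step h hd hne
          have h2 : NB G (s + 2) z u u' z := NB.step h1 hzu'.symm (Ne.symm hp)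
          exact ⟨s + 2, z, u, u', by omega, h2⟩
      | @step s' _ _ c' d' _ h' hd' hne' =>
        by_cases hp : p = p'
        · subst hp
          obtain ⟨l, a, b, c, hl, hnb⟩ := ih s' huu h h'
          exact ⟨l, a, b, c, by omega, hnb⟩
        · have h1 : NB G (s + 1) z u p x := NB.step h hd hne
          have h2 : NB G (s' + 1) z u' p' x := NB.step h' hd' hne'
          have h4 := NB.trans h1 h2.symm (Ne.symm hp)
          exact ⟨_, z, u, u', by omega, h4⟩

/-- Two non-backtracking walks of lengths `n` and `n' < n` with the same ends give a short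
cycle, unless the second one is a prefix of the first one. -/
theorem cycle_of_two_walks' (y y' : ℕ → V) (n n' : ℕ) (hnn : n' < n)
    (hadj : ∀ i < n, G.Adj (y i) (y (i + 1))) (hnb : ∀ i, 1 ≤ i → i < n → y (i + 1) ≠ y (i - 1))
    (hadj' : ∀ i < n', G.Adj (y' i) (y' (i + 1)))
    (hnb' : ∀ i, 1 ≤ i → i < n' → y' (i + 1) ≠ y' (i - 1)) (h0 : y 0 = y' 0)
    (hn : y n = y' n') (hne : ∃ k ≤ n', y k ≠ y' k) :
    G.egirth ≤ ((n + n' : ℕ) : ℕ∞) := by
  classical
  have hex : ∃ k, k ≤ n' ∧ y k ≠ y' k := hne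
  obtain ⟨hr, hrne⟩ := Nat.find_spec hex
  set r := Nat.find hex with hrdef
  have hr0 : r ≠ 0 := by
    intro h
    rw [h] at hrne
    exact hrne h0
  have hr1 : y (r - 1) = y' (r - 1) := by
    by_contra h
    exact Nat.find_min hex (m := r - 1) (by omega) ⟨by omega, h⟩
  obtain ⟨a, ha⟩ : ∃ a, r = a + 1 := ⟨r - 1, by omega⟩
  rw [ha, Nat.add_sub_cancel] at hr1
  rw [ha] at hrne
  have h1 := NB_of_fun y n hadj hnb a (n - a - 1) (by omega)
  have h2 := NB_of_fun y' n' hadj' hnb' a (n' - a - 1) (by omega)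
  have e : a + (n - a - 1) + 1 = n := by omega
  have e' : a + (n' - a - 1) + 1 = n' := by omega
  rw [e] at h1
  rw [e'] at h2
  rw [← hr1, ← hn] at h2
  obtain ⟨l, a1, b1, c1, hl, hnb3⟩ := closed_of_two' _ _ hrne h1 h2
  obtain ⟨v, w, hw, hwl⟩ := exists_cycle hnb3
  refine (SimpleGraph.egirth_le_length hw).trans ?_
  exact_mod_cast (by omega : w.length ≤ n + n')

end walks

section sysOf

variable {K : Type*} [Field K] {m : ℕ} [NeZero m]
variable (f : (i : Fin m) → MvPolynomial (Fin (i : ℕ) ⊕ Fin (i : ℕ)) K)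

/-- Large girth excludes non-backtracking walks of lengths `n + 2` and `n` with the same
ends. -/
theorem noD_of_girth {n : ℕ} (h : ((2 * (n + 1) : ℕ) : ℕ∞) < (algGraph f).egirth) :
    (sysOf f).NoD K (n + 2) n := by
  intro σ v ω ω' h0 h0' ht ht' hw
  have key : ∀ (N : ℕ) (ω : ℕ → K), ω 0 = v 0 → (∀ k, 1 ≤ k → k < N → ω (k + 1) ≠ ω (k - 1)) →
      (∀ i < N, (algGraph f).Adj (vert (ty σ i) ((sysOf f).walk σ v ω i))
        (vert (ty σ (i + 1)) ((sysOf f).walk σ v ω (i + 1)))) ∧
      (∀ i, 1 ≤ i → i < N → vert (ty σ (i + 1)) ((sysOf f).walk σ v ω (i + 1)) ≠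
        vert (ty σ (i - 1)) ((sysOf f).walk σ v ω (i - 1))) := by
    intro N ω h0 ht
    constructor
    · intro i _
      rw [Sys.walk_succ, ty_succ]
      exact adj_vert f _ _ _
    · intro i h1 h2 heq
      have e : ty σ (i + 1) = ty σ (i - 1) := by
        have : i + 1 = (i - 1) + 2 := by omega
        rw [this, ty_add_two]
      rw [e] at heq
      have h3 := congrFun (vert_injective _ heq) 0
      rw [Sys.walk_fst _ _ _ _ h0, Sys.walk_fst _ _ _ _ h0] at h3
      exact ht i h1 h2 h3
  obtain ⟨a1, a2⟩ := key (n + 2) ω h0 ht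
  obtain ⟨b1, b2⟩ := key n ω' h0' ht'
  by_cases hex : ∃ k ≤ n, vert (ty σ k) ((sysOf f).walk σ v ω k) ≠
      vert (ty σ k) ((sysOf f).walk σ v ω' k)
  · have h5 := cycle_of_two_walks' (G := algGraph f)
      (fun i => vert (ty σ i) ((sysOf f).walk σ v ω i))
      (fun i => vert (ty σ i) ((sysOf f).walk σ v ω' i)) (n + 2) n (by omega) a1 a2 b1 b2 rfl (by
        simp only [hw, ty_add_two]) hex
    refine absurd h (not_lt.mpr (h5.trans ?_))
    exact_mod_cast (by omega : n + 2 + n ≤ 2 * (n + 1))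
  · push Not at hex
    have h1 := hex n le_rfl
    have h2 := congrFun (vert_injective _ h1) 0
    rw [Sys.walk_fst _ _ _ _ h0, Sys.walk_fst _ _ _ _ h0'] at h2
    have h3 := congrFun hw 0
    rw [Sys.walk_fst _ _ _ _ h0, Sys.walk_fst _ _ _ _ h0'] at h3
    apply ht (n + 1) (by omega) (by omega)
    rw [Nat.add_sub_cancel, h2]
    exact h3

end sysOf

end Pool.Agent.Helper49.Girth
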