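import Mathlib
import Pool.Agent.Helper49.FH.NoD
import Pool.Agent.Helper49.FH.MainSys
import Pool.Agent.Helper49.Girth.Transfer2

set_option autoImplicit false

namespace Pool.Agent.Helper49.Girth

open MvPolynomial

universe u

/-- **Main theorem over algebraically closed fields of every characteristic.** -/
theorem main_fieldS {K : Type u} [Field K] [IsAlgClosed K] {m : ℕ}
    (hm : m = 4 ∨ 6 ≤ m) (f : (i : Fin m) → MvPolynomial (Fin (i : ℕ) ⊕ Fin (i : ℕ)) K) :
    (algGraph f).egirth ≤ ((2 * m : ℕ) : ℕ∞) := by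
  by_contra hcon
  push Not at hcon
  have : NeZero m := ⟨by omega⟩
  have hinj : ∀ n, n ≤ m → (sysOf f).Inj K n := by
    intro n hn
    apply inj_of_girth f
    refine lt_of_le_of_lt ?_ hcon
    exact_mod_cast (by omega : 2 * n ≤ 2 * m)
  obtain ⟨n, hn⟩ : ∃ n, n + 1 = m := ⟨m - 1, by omega⟩
  have hD : (sysOf f).NoD K (n + 2) n := by
    apply noD_of_girth f
    rw [hn]
    exact hcon
  have hDF : (sysOf f).NoDF (m + 1) n := by
    intro L _ _
    have h1 := (sysOf f).noD_field hD L
    have e : m + 1 = n + 2 := by omega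
    rw [e]
    exact h1
  have h3 := (sysOf f).main_sysS (by omega) hn (hinj m le_rfl) (hinj n (by omega))
    (hinj 2 (by omega)) hDF
  omega

/-- **Main theorem over finite fields.** -/
theorem main_finite {m : ℕ} (hm : m = 4 ∨ 6 ≤ m) (d : ℕ) :
    ∃ n₀ : ℕ, 0 < n₀ ∧ ∀ (F : Type u) [Field F] [Finite F]
      (f : (i : Fin m) → MvPolynomial (Fin (i : ℕ) ⊕ Fin (i : ℕ)) F),
        (∀ i, (f i).totalDegree ≤ d) →
        ∀ (E : Type u) [Field E] [Algebra F E] [Finite E],
          n₀ ∣ Module.finrank F E →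
          (algGraph fun i => MvPolynomial.map (algebraMap F E) (f i)).egirth ≤
            ((2 * m : ℕ) : ℕ∞) :=
  transfer2 m (fun _ _ _ f => main_fieldS hm f) d

end Pool.Agent.Helper49.Girth
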